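import Mathlib
import Pool.Agent.Helper233.CI.Holo
import Pool.Agent.Y263.SC.Mk

/-!
Gleason decomposition (after Leibenson) for bounded holomorphic functions on bounded strictly convex
domains of `ℂ²`.
-/

set_option autoImplicit false

open Metric Set Filter Topology
open Pool.Agent.Helper233.CI
open Pool.Agent.Y263.SC

namespace Pool.Agent.K9h23.Sc

variable {D : Set (ℂ × ℂ)} {ρ : ℂ × ℂ → ℝ} {a b : ℂ × ℂ → ℂ} {l L d : ℝ}

/-- the segment from `p` to `z` -/
noncomputable def sg (p z : ℂ × ℂ) (t : ℝ) : ℂ × ℂ := p + (t : ℂ) • (z - p)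

lemma sg_eq (p z : ℂ × ℂ) (t : ℝ) : sg p z t = ((1 - t : ℝ) : ℂ) • p + (t:ℂ) • z := by
  unfold sg
  push_cast; rw [sub_smul, one_smul, smul_sub]; abel

lemma sg_cont (p z : ℂ × ℂ) : Continuous (sg p z) := by
  unfold sg; fun_prop

lemma sg_mem (hc : Convex ℝ D) {p z : ℂ × ℂ} (hp : p ∈ D) (hz : z ∈ D) {t : ℝ} (h0 : 0 ≤ t)
    (h1 : t ≤ 1) : sg p z t ∈ D := by
  have h := hc hp hz (by linarith : 0 ≤ 1 - t) h0 (by ring)
  rw [sg_eq, Complex.coe_smul, Complex.coe_smul]
  exact h

lemma cauchy_dir (hD : IsOpen D) {F : ℂ × ℂ → ℂ} (hF : DifferentiableOn ℂ F D) {M : ℝ}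
    (hM : ∀ z ∈ D, ‖F z‖ ≤ M) (y v : ℂ × ℂ) {r : ℝ} (hr : 0 < r)
    (hmem : ∀ η : ℂ, ‖η‖ ≤ r → y + η • v ∈ D) : ‖fderiv ℂ F y v‖ ≤ M / r := by
  have hd : ∀ η : ℂ, ‖η‖ ≤ r → HasDerivAt (fun η : ℂ => F (y + η • v))
      (fderiv ℂ F (y + η • v) v) η := by
    intro η hη
    have h1 : HasFDerivAt F (fderiv ℂ F (y + η • v)) (y + η • v) :=
      (hF.differentiableAt (hD.mem_nhds (hmem η hη))).hasFDerivAt
    have h2 : HasDerivAt (fun η : ℂ => y + η • v) v η := by
      simpa using ((hasDerivAt_id η).smul_const v).const_add y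
    exact h1.comp_hasDerivAt η h2
  have h0 := (hd 0 (by simpa using hr.le)).deriv
  have hdc : DiffContOnCl ℂ (fun η : ℂ => F (y + η • v)) (ball 0 r) := by
    apply DifferentiableOn.diffContOnCl
    rw [closure_ball _ hr.ne']
    intro η hη
    rw [mem_closedBall_zero_iff] at hη
    exact (hd η hη).differentiableAt.differentiableWithinAt
  have := Complex.norm_deriv_le_of_forall_mem_sphere_norm_le (c := (0:ℂ)) hr hdc (C := M) (by
    intro η hη
    rw [mem_sphere_zero_iff_norm] at hη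
    exact hM _ (hmem η hη.le))
  rw [h0] at this
  simpa using this

lemma fd_cont (hD : IsOpen D) (hc : Convex ℝ D) {F : ℂ × ℂ → ℂ} (hF : DifferentiableOn ℂ F D)
    {p z : ℂ × ℂ} (hp : p ∈ D) (hz : z ∈ D) (v : ℂ × ℂ) :
    ContinuousOn (fun t : ℝ => fderiv ℂ F (sg p z t) v) (Icc 0 1) := by
  refine (Holo.differentiableOn_fderiv_apply hD hF v).continuousOn.comp
    (sg_cont p z).continuousOn ?_
  intro t ht
  exact sg_mem hc hp hz ht.1 ht.2

lemma fd_int (hD : IsOpen D) (hc : Convex ℝ D) {F : ℂ × ℂ → ℂ} (hF : DifferentiableOn ℂ F D)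
    {p z : ℂ × ℂ} (hp : p ∈ D) (hz : z ∈ D) (v : ℂ × ℂ) :
    IntervalIntegrable (fun t : ℝ => fderiv ℂ F (sg p z t) v) MeasureTheory.volume 0 1 := by
  apply ContinuousOn.intervalIntegrable
  rw [uIcc_of_le zero_le_one]
  exact fd_cont hD hc hF hp hz v

lemma ftc (hD : IsOpen D) (hc : Convex ℝ D) {F : ℂ × ℂ → ℂ} (hF : DifferentiableOn ℂ F D)
    {p z : ℂ × ℂ} (hp : p ∈ D) (hz : z ∈ D) :
    ∫ t in (0:ℝ)..1, fderiv ℂ F (sg p z t) (z - p) = F z - F p := by
  have h1 : ∀ t ∈ uIcc (0:ℝ) 1, HasDerivAt (fun t : ℝ => F (sg p z t))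
      (fderiv ℂ F (sg p z t) (z - p)) t := by
    intro t ht
    rw [uIcc_of_le zero_le_one] at ht
    have h1 : HasFDerivAt F (fderiv ℂ F (sg p z t)) (sg p z t) :=
      (hF.differentiableAt (hD.mem_nhds (sg_mem hc hp hz ht.1 ht.2))).hasFDerivAt
    have h2 : HasDerivAt (fun η : ℂ => p + η • (z - p)) (z - p) (t : ℂ) := by
      simpa using ((hasDerivAt_id (t:ℂ)).smul_const (z - p)).const_add p
    exact (HasFDerivAt.comp_hasDerivAt (t:ℂ) h1 h2).comp_ofReal
  rw [intervalIntegral.integral_eq_sub_of_hasDerivAt h1 (fd_int hD hc hF hp hz _)]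
  simp [sg]

/-- the Leibenson operator -/
noncomputable def gam (F : ℂ × ℂ → ℂ) (p e z : ℂ × ℂ) : ℂ :=
  ∫ t in (0:ℝ)..1, fderiv ℂ F (sg p z t) e

lemma int_rsqrt : ∫ t in (0:ℝ)..1, (1 - t) ^ (-(1/2) : ℝ) = 2 := by
  rw [intervalIntegral.integral_comp_sub_left (fun x : ℝ => x ^ (-(1/2) : ℝ)) 1]
  rw [sub_self, sub_zero, integral_rpow (Or.inl (by norm_num))]
  norm_num

lemma int_rsqrt' : IntervalIntegrable (fun t : ℝ => (1 - t) ^ (-(1/2) : ℝ))
    MeasureTheory.volume 0 1 := by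
  have := (intervalIntegral.intervalIntegrable_rpow' (a := 1) (b := 0) (r := -(1/2))
    (by norm_num)).comp_sub_left 1
  simpa using this

/-- `|v₁| + |v₂|` -/
noncomputable def n1 (v : ℂ × ℂ) : ℝ := ‖v.1‖ + ‖v.2‖

lemma n1_nonneg (v : ℂ × ℂ) : 0 ≤ n1 v := by unfold n1; positivity

lemma n1_add (v w : ℂ × ℂ) : n1 (v + w) ≤ n1 v + n1 w := by
  unfold n1
  have h1 := norm_add_le v.1 w.1
  have h2 := norm_add_le v.2 w.2
  simp only [Prod.fst_add, Prod.snd_add]
  linarith

lemma n1_smul (c : ℂ) (v : ℂ × ℂ) : n1 (c • v) = ‖c‖ * n1 v := by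
  unfold n1
  simp only [Prod.smul_fst, Prod.smul_snd, norm_smul]
  ring

/-- points near a point of `D` where the form `a, b` nearly vanishes -/
lemma disc_mem (h : SCD D ρ a b l L d) {y z v : ℂ × ℂ} (hy : y ∈ D) (hz : z ∈ D)
    (h0 : a z * v.1 + b z * v.2 = 0) (hv : n1 v ≤ d)
    (hs : ρ y + 2 * (L * (n1 v + n1 (y - z)) * n1 v) < 0) : y + v ∈ D := by
  have hN : y + v ∈ Nb D d := ⟨y, hy, by
    simp only [Prod.fst_add, Prod.snd_add, add_sub_cancel_left]
    exact hv⟩
  refine h.mem _ hN ?_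
  have h1 := h.conv _ hN _ (h.sub hy)
  have e1 : y.1 - (y + v).1 = -v.1 := by simp
  have e2 : y.2 - (y + v).2 = -v.2 := by simp
  rw [e1, e2] at h1
  have h2 : (a (y + v) * -v.1 + b (y + v) * -v.2).re =
      -((a (y + v) - a z) * v.1 + (b (y + v) - b z) * v.2).re := by
    rw [← Complex.neg_re]
    congr 1
    linear_combination (-1 : ℂ) * h0
  rw [h2] at h1
  have h3 := Complex.re_le_norm ((a (y + v) - a z) * v.1 + (b (y + v) - b z) * v.2)
  have h4 := cs2 (a (y + v) - a z) (b (y + v) - b z) v.1 v.2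
  have h5 := h.alip _ hN _ (h.sub hz)
  have h6 := h.blip _ hN _ (h.sub hz)
  have hL : 0 ≤ L := by linarith [h.L1]
  have h7 : ‖(y + v).1 - z.1‖ + ‖(y + v).2 - z.2‖ ≤ n1 v + n1 (y - z) := by
    have := n1_add v (y - z)
    have e : v + (y - z) = (y + v) - z := by abel
    rw [e] at this
    exact this
  have h8 := h5.trans (mul_le_mul_of_nonneg_left h7 hL)
  have h9 := h6.trans (mul_le_mul_of_nonneg_left h7 hL)
  have h10 : 0 ≤ l * (‖-v.1‖ ^ 2 + ‖-v.2‖ ^ 2) := by
    have := h.l0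
    positivity
  have h11 : ‖a (y + v) - a z‖ * ‖v.1‖ ≤ L * (n1 v + n1 (y - z)) * ‖v.1‖ := by gcongr
  have h12 : ‖b (y + v) - b z‖ * ‖v.2‖ ≤ L * (n1 v + n1 (y - z)) * ‖v.2‖ := by gcongr
  have h13 : L * (n1 v + n1 (y - z)) * n1 v =
      L * (n1 v + n1 (y - z)) * ‖v.1‖ + L * (n1 v + n1 (y - z)) * ‖v.2‖ := by
    rw [← mul_add]; rfl
  rw [h13] at hs
  linarith

lemma disc_mem' (h : SCD D ρ a b l L d) {y v : ℂ × ℂ} (hy : y ∈ D) (hv : n1 v ≤ d)
    (hs : ρ y + 2 * (L * n1 v) < 0) : y + v ∈ D := by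
  have hN : y + v ∈ Nb D d := ⟨y, hy, by
    simp only [Prod.fst_add, Prod.snd_add, add_sub_cancel_left]
    exact hv⟩
  refine h.mem _ hN ?_
  have h1 := h.conv _ hN _ (h.sub hy)
  have e1 : y.1 - (y + v).1 = -v.1 := by simp
  have e2 : y.2 - (y + v).2 = -v.2 := by simp
  rw [e1, e2] at h1
  have h2 : (a (y + v) * -v.1 + b (y + v) * -v.2).re =
      -(a (y + v) * v.1 + b (y + v) * v.2).re := by
    rw [← Complex.neg_re]
    congr 1
    ring
  rw [h2] at h1
  have h3 := Complex.re_le_norm (a (y + v) * v.1 + b (y + v) * v.2)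
  have h4 := cs2 (a (y + v)) (b (y + v)) v.1 v.2
  have h5 := h.abd _ hN
  have h6 := h.bbd _ hN
  have h10 : 0 ≤ l * (‖-v.1‖ ^ 2 + ‖-v.2‖ ^ 2) := by
    have := h.l0
    positivity
  have h11 : ‖a (y + v)‖ * ‖v.1‖ ≤ L * ‖v.1‖ := by gcongr
  have h12 : ‖b (y + v)‖ * ‖v.2‖ ≤ L * ‖v.2‖ := by gcongr
  have h13 : L * n1 v = L * ‖v.1‖ + L * ‖v.2‖ := by rw [← mul_add]; rfl
  rw [h13] at hs
  linarith

/-- Jensen -/
lemma rho_sg (h : SCD D ρ a b l L d) (hc : Convex ℝ D) {p z : ℂ × ℂ} (hp : p ∈ D) (hz : z ∈ D)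
    {t : ℝ} (h0 : 0 ≤ t) (h1 : t ≤ 1) : ρ (sg p z t) ≤ (1 - t) * ρ p + t * ρ z := by
  set y := sg p z t with hy
  have hyD : y ∈ D := sg_mem hc hp hz h0 h1
  have c1 := h.conv _ (h.sub hyD) _ (h.sub hp)
  have c2 := h.conv _ (h.sub hyD) _ (h.sub hz)
  have hl := h.l0
  have n1 : 0 ≤ l * (‖p.1 - y.1‖ ^ 2 + ‖p.2 - y.2‖ ^ 2) := by positivity
  have n2 : 0 ≤ l * (‖z.1 - y.1‖ ^ 2 + ‖z.2 - y.2‖ ^ 2) := by positivity
  have e1 : (1 - t) * (a y * (p.1 - y.1) + b y * (p.2 - y.2)).re +
      t * (a y * (z.1 - y.1) + b y * (z.2 - y.2)).re = 0 := by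
    rw [← Complex.re_ofReal_mul, ← Complex.re_ofReal_mul, ← Complex.add_re]
    have : ((1 - t : ℝ) : ℂ) * (a y * (p.1 - y.1) + b y * (p.2 - y.2)) +
        (t : ℂ) * (a y * (z.1 - y.1) + b y * (z.2 - y.2)) = 0 := by
      rw [show y = sg p z t from hy]
      have e3 : (sg p z t).1 = p.1 + t * (z.1 - p.1) := rfl
      have e4 : (sg p z t).2 = p.2 + t * (z.2 - p.2) := rfl
      rw [e3, e4]
      push_cast
      ring
    rw [this, Complex.zero_re]
  nlinarith

/-- boundedness -/
theorem gam_bd (h : SCD D ρ a b l L d) (hc : Convex ℝ D) {R : ℝ}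
    (hR : ∀ x ∈ D, ∀ y ∈ D, n1 (x - y) ≤ R) {p : ℂ × ℂ} (hp : p ∈ D) {e : ℂ × ℂ}
    (he : n1 e = 1) : ∃ C : ℝ, ∀ (F : ℂ × ℂ → ℂ), DifferentiableOn ℂ F D → ∀ M : ℝ,
      (∀ z ∈ D, ‖F z‖ ≤ M) → ∀ z ∈ D, ‖gam F p e z‖ ≤ C * M := by
  have hD := h.op
  have hL : 1 ≤ L := h.L1
  have hL0 : 0 < L := by linarith
  have hR0 : 0 ≤ R := (n1_nonneg _).trans (hR p hp p hp)
  set κ : ℝ := -ρ p with hκ
  have hκ0 : 0 < κ := by have := h.neg p hp; linarith
  have hκL : κ ≤ L := h.rbd p hp
  have hd := h.d0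
  -- interior radius
  set r0 : ℝ := min d (κ / (8 * L)) with hr0
  have hr00 : 0 < r0 := lt_min hd (by positivity)
  have hr01 : r0 ≤ d := min_le_left _ _
  have hr02 : L * r0 ≤ κ / 8 := by
    have : r0 ≤ κ / (8 * L) := min_le_right _ _
    calc L * r0 ≤ L * (κ / (8 * L)) := by gcongr
      _ = κ / 8 := by field_simp
  -- size of the tangential direction
  set T : ℝ := 1 + 2 * L * R / κ * 2 with hT
  have hT0 : 1 ≤ T := by rw [hT]; have : 0 ≤ 2 * L * R / κ * 2 := by positivity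
                         linarith
  -- tangential radius
  set c : ℝ := min (min d 1) (κ / (8 * L * (1 + R))) / T with hcdef
  have hm0 : 0 < min (min d 1) (κ / (8 * L * (1 + R))) :=
    lt_min (lt_min hd one_pos) (by positivity)
  have hc0 : 0 < c := by positivity
  have hcT : c * T = min (min d 1) (κ / (8 * L * (1 + R))) := by rw [hcdef]; field_simp
  refine ⟨1 / r0 + (2 * L / κ * 2 * 2 + 2 / c), ?_⟩
  intro F hF M hM z hz
  have hM0 : 0 ≤ M := (norm_nonneg _).trans (hM p hp)
  unfold gam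
  by_cases hcase : ρ z ≤ -κ / 2
  · have hb : ∀ t ∈ uIoc (0:ℝ) 1, ‖fderiv ℂ F (sg p z t) e‖ ≤ M / r0 := by
      intro t ht
      rw [uIoc_of_le zero_le_one] at ht
      refine cauchy_dir hD hF hM _ e hr00 fun η hη => ?_
      have hy := sg_mem hc hp hz ht.1.le ht.2
      have h1 : n1 (η • e) ≤ r0 := by rw [n1_smul, he, mul_one]; exact hη
      refine disc_mem' h hy (h1.trans hr01) ?_
      have h2 := rho_sg h hc hp hz ht.1.le ht.2
      have h3 : L * n1 (η • e) ≤ κ / 8 := (mul_le_mul_of_nonneg_left h1 hL0.le).trans hr02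
      have h4 : (1 - t) * ρ p + t * ρ z ≤ -κ / 2 := by
        have : ρ p = -κ := by rw [hκ]; ring
        rw [this]
        nlinarith [ht.1, ht.2]
      linarith
    have := intervalIntegral.norm_integral_le_of_norm_le_const hb
    refine this.trans ?_
    rw [sub_zero, abs_one, mul_one]
    have h5 : 0 ≤ (2 * L / κ * 2 * 2 + 2 / c) * M := by positivity
    have h6 : M / r0 = 1 / r0 * M := by ring
    rw [h6, add_mul]
    linarith
  · push Not at hcase
    -- the supporting form at z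
    set s : ℂ := a z * (z.1 - p.1) + b z * (z.2 - p.2) with hs
    have hs1 : κ / 4 ≤ ‖s‖ := by
      have h1 := h.conv _ (h.sub hz) _ (h.sub hp)
      have h2 : (a z * (p.1 - z.1) + b z * (p.2 - z.2)).re = -s.re := by
        rw [← Complex.neg_re, hs]
        congr 1
        ring
      rw [h2] at h1
      have h3 : 0 ≤ l * (‖p.1 - z.1‖ ^ 2 + ‖p.2 - z.2‖ ^ 2) := by
        have := h.l0
        positivity
      have h4 := Complex.re_le_norm s
      have h5 : ρ p = -κ := by rw [hκ]; ring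
      linarith
    have hs0 : s ≠ 0 := by
      intro h
      rw [h, norm_zero] at hs1
      linarith
    set A : ℂ := (a z * e.1 + b z * e.2) / s with hA
    have hA1 : ‖A‖ ≤ 2 * L / κ * 2 := by
      rw [hA, norm_div]
      have h4 : ‖a z * e.1 + b z * e.2‖ ≤ L := by
        refine (cs2 _ _ _ _).trans ?_
        have h5 := h.abd _ (h.sub hz)
        have h6 := h.bbd _ (h.sub hz)
        calc ‖a z‖ * ‖e.1‖ + ‖b z‖ * ‖e.2‖ ≤ L * ‖e.1‖ + L * ‖e.2‖ := by gcongr
          _ = L * n1 e := by unfold n1; ring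
          _ = L := by rw [he, mul_one]
      rw [div_le_iff₀ (norm_pos_iff.2 hs0)]
      calc ‖a z * e.1 + b z * e.2‖ ≤ L := h4
        _ = 2 * L / κ * 2 * (κ / 4) := by field_simp; norm_num
        _ ≤ _ := by gcongr
    set τ : ℂ × ℂ := e - A • (z - p) with hτ
    have hτ0 : a z * τ.1 + b z * τ.2 = 0 := by
      have e1 : τ.1 = e.1 - A * (z.1 - p.1) := rfl
      have e2 : τ.2 = e.2 - A * (z.2 - p.2) := rfl
      have e3 : A * s = a z * e.1 + b z * e.2 := by rw [hA]; field_simp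
      rw [e1, e2]
      rw [hs] at e3
      linear_combination (-1 : ℂ) * e3
    have hτn : n1 τ ≤ T := by
      have h1 := n1_add e (-(A • (z - p)))
      have h2 : n1 (-(A • (z - p))) = ‖A‖ * n1 (z - p) := by
        rw [← neg_smul, n1_smul, norm_neg]
      have e3 : e + -(A • (z - p)) = τ := by rw [hτ]; abel
      rw [h2, e3, he] at h1
      refine h1.trans ?_
      rw [hT]
      have h3 := hR z hz p hp
      have h4 : ‖A‖ * n1 (z - p) ≤ 2 * L / κ * 2 * R := by
        have := n1_nonneg (z - p)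
        gcongr
      have e5 : 2 * L / κ * 2 * R = 2 * L * R / κ * 2 := by ring
      linarith
    have hdec : ∀ t : ℝ, fderiv ℂ F (sg p z t) e =
        A * fderiv ℂ F (sg p z t) (z - p) + fderiv ℂ F (sg p z t) τ := by
      intro t
      have h1 := (fderiv ℂ F (sg p z t)).map_sub e (A • (z - p))
      have h2 := (fderiv ℂ F (sg p z t)).map_smul A (z - p)
      rw [hτ, h1, h2, smul_eq_mul]
      ring
    have hint1 : IntervalIntegrable (fun t : ℝ => A * fderiv ℂ F (sg p z t) (z - p))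
        MeasureTheory.volume 0 1 := (fd_int hD hc hF hp hz _).const_mul _
    have hint2 : IntervalIntegrable (fun t : ℝ => fderiv ℂ F (sg p z t) τ)
        MeasureTheory.volume 0 1 := fd_int hD hc hF hp hz _
    simp only [hdec]
    rw [intervalIntegral.integral_add hint1 hint2, intervalIntegral.integral_const_mul,
      ftc hD hc hF hp hz]
    have hAb : ‖A * (F z - F p)‖ ≤ 2 * L / κ * 2 * 2 * M := by
      rw [norm_mul]
      have h1 : ‖F z - F p‖ ≤ 2 * M := by
        refine (norm_sub_le _ _).trans ?_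
        have := hM z hz
        have := hM p hp
        linarith
      calc ‖A‖ * _ ≤ 2 * L / κ * 2 * (2 * M) := by gcongr
        _ = 2 * L / κ * 2 * 2 * M := by ring
    have hB : ‖∫ t in (0:ℝ)..1, fderiv ℂ F (sg p z t) τ‖ ≤ 2 / c * M := by
      have hgi : IntervalIntegrable (fun t : ℝ => M / c * (1 - t) ^ (-(1/2) : ℝ))
          MeasureTheory.volume 0 1 := int_rsqrt'.const_mul _
      have hle := intervalIntegral.norm_integral_le_of_norm_le
        (f := fun t : ℝ => fderiv ℂ F (sg p z t) τ)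
        (g := fun t : ℝ => M / c * (1 - t) ^ (-(1/2) : ℝ)) (μ := MeasureTheory.volume)
        (a := 0) (b := 1) zero_le_one (by
        have : ∀ᵐ t : ℝ, t ≠ 1 := by
          simp [MeasureTheory.ae_iff]
        filter_upwards [this] with t ht1 ht
        have ht2 : t < 1 := lt_of_le_of_ne ht.2 ht1
        have h1t : 0 < 1 - t := by linarith
        have hsq : 0 < √(1 - t) := Real.sqrt_pos.2 h1t
        have hsq2 : √(1 - t) ^ 2 = 1 - t := Real.sq_sqrt h1t.le
        have hsq1 : √(1 - t) ≤ 1 := Real.sqrt_le_one.2 (by linarith [ht.1])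
        have := cauchy_dir hD hF hM (sg p z t) τ (r := √(1 - t) * c) (by positivity) (by
          intro η hη
          have hy := sg_mem hc hp hz ht.1.le ht.2
          have hv : n1 (η • τ) ≤ √(1 - t) * (c * T) := by
            rw [n1_smul]
            calc ‖η‖ * n1 τ ≤ √(1 - t) * c * T := by
                  gcongr
                  exact n1_nonneg _
              _ = _ := by ring
          have hcT1 : c * T ≤ d := by rw [hcT]; exact (min_le_left _ _).trans (min_le_left _ _)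
          have hcT2 : c * T ≤ 1 := by rw [hcT]; exact (min_le_left _ _).trans (min_le_right _ _)
          have hcT3 : L * (1 + R) * (c * T) ≤ κ / 8 := by
            have : c * T ≤ κ / (8 * L * (1 + R)) := by rw [hcT]; exact min_le_right _ _
            calc L * (1 + R) * (c * T) ≤ L * (1 + R) * (κ / (8 * L * (1 + R))) := by gcongr
              _ = κ / 8 := by field_simp
          have hcT0 : 0 < c * T := by positivity
          have hv0 := n1_nonneg (η • τ)
          refine disc_mem h hy hz ?_ ?_ ?_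
          · have e1 : (η • τ).1 = η * τ.1 := rfl
            have e2 : (η • τ).2 = η * τ.2 := rfl
            rw [e1, e2]
            linear_combination η * hτ0
          · refine hv.trans ?_
            calc √(1 - t) * (c * T) ≤ 1 * (c * T) := by gcongr
              _ ≤ d := by linarith
          · have hyz : n1 (sg p z t - z) ≤ (1 - t) * R := by
              have e1 : sg p z t - z = ((1 - t : ℝ) : ℂ) • (p - z) := by
                unfold sg
                push_cast
                rw [sub_smul, one_smul, smul_sub, smul_sub]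
                abel
              rw [e1, n1_smul, Complex.norm_real, Real.norm_of_nonneg h1t.le]
              exact mul_le_mul_of_nonneg_left (hR p hp z hz) h1t.le
            have hsum : n1 (η • τ) + n1 (sg p z t - z) ≤ √(1 - t) * (1 + R) := by
              have h1 : √(1 - t) * (c * T) ≤ √(1 - t) * 1 := by gcongr
              have h2 : (1 - t) * R ≤ √(1 - t) * R := by
                have : 1 - t ≤ √(1 - t) := by nlinarith
                gcongr
              linarith
            have h2 := rho_sg h hc hp hz ht.1.le ht.2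
            have h3 : (1 - t) * ρ p + t * ρ z ≤ -((1 - t) * κ) := by
              have e5 : ρ p = -κ := by rw [hκ]; ring
              have e6 := h.neg z hz
              rw [e5]
              nlinarith [ht.1]
            have h4 : L * (n1 (η • τ) + n1 (sg p z t - z)) * n1 (η • τ) ≤
                (1 - t) * (κ / 8) := by
              calc L * (n1 (η • τ) + n1 (sg p z t - z)) * n1 (η • τ) ≤
                    L * (√(1 - t) * (1 + R)) * (√(1 - t) * (c * T)) := by gcongr
                _ = √(1 - t) ^ 2 * (L * (1 + R) * (c * T)) := by ring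
                _ ≤ _ := by rw [hsq2]; gcongr
            nlinarith [mul_pos h1t hκ0])
        refine this.trans (le_of_eq ?_)
        rw [Real.rpow_neg h1t.le, ← Real.sqrt_eq_rpow]
        field_simp)
        hgi
      refine hle.trans (le_of_eq ?_)
      rw [intervalIntegral.integral_const_mul, int_rsqrt]; ring
    have h7 : 0 ≤ 1 / r0 * M := by positivity
    calc _ ≤ 2 * L / κ * 2 * 2 * M + 2 / c * M := (norm_add_le _ _).trans (add_le_add hAb hB)
      _ ≤ _ := by rw [add_mul, add_mul]; linarith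

/-- holomorphy -/
theorem gam_diff (hD : IsOpen D) (hc : Convex ℝ D) {F : ℂ × ℂ → ℂ} (hF : DifferentiableOn ℂ F D)
    (e : ℂ × ℂ) {p : ℂ × ℂ} (hp : p ∈ D) : DifferentiableOn ℂ (gam F p e) D := by
  set K : ℂ × ℂ → ℂ := fun y => fderiv ℂ F y e with hK
  have hKd : DifferentiableOn ℂ K D := Holo.differentiableOn_fderiv_apply hD hF e
  have hKc : ContinuousOn (fderiv ℂ K) D :=
    (Holo.contDiffOn_of_differentiableOn hD hKd 1).continuousOn_fderiv_of_isOpen hD
      (by norm_num)
  intro x0 hx0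
  -- a compact convex neighbourhood
  obtain ⟨r, hr0, hr1⟩ := Metric.nhds_basis_closedBall.mem_iff.1 (hD.mem_nhds hx0)
  set S : Set (ℂ × ℂ) := (fun q : (ℂ × ℂ) × ℝ => sg p q.1 q.2) '' (closedBall x0 r ×ˢ Icc 0 1)
    with hS
  have hScomp : IsCompact S := by
    refine ((isCompact_closedBall x0 r).prod isCompact_Icc).image ?_
    unfold sg
    fun_prop
  have hSD : S ⊆ D := by
    rintro _ ⟨⟨x, t⟩, ⟨hx, ht⟩, rfl⟩
    exact sg_mem hc hp (hr1 hx) ht.1 ht.2
  obtain ⟨C, hC⟩ := hScomp.exists_bound_of_continuousOn (hKc.mono hSD)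
  have hxr : ball x0 r ∈ 𝓝 x0 := ball_mem_nhds _ hr0
  refine (HasFDerivAt.differentiableAt (f' := ∫ t in (0:ℝ)..1, (t:ℂ) • fderiv ℂ K (sg p x0 t))
    ?_).differentiableWithinAt
  refine intervalIntegral.hasFDerivAt_integral_of_dominated_of_fderiv_le (s := ball x0 r)
    (F := fun x t => K (sg p x t)) (F' := fun x t => (t:ℂ) • fderiv ℂ K (sg p x t))
    (bound := fun _ => C) hxr ?_ ?_ ?_ ?_ ?_ ?_
  · filter_upwards [hxr] with x hx
    have h1 := (fd_int hD hc hF hp (hr1 (ball_subset_closedBall hx)) e)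
    exact (intervalIntegrable_iff.1 h1).aestronglyMeasurable
  · exact fd_int hD hc hF hp hx0 e
  · have h1 : ContinuousOn (fun t : ℝ => (t:ℂ) • fderiv ℂ K (sg p x0 t)) (Icc 0 1) := by
      refine Complex.continuous_ofReal.continuousOn.smul ?_
      refine hKc.comp (sg_cont p x0).continuousOn ?_
      intro t ht
      exact sg_mem hc hp hx0 ht.1 ht.2
    have h2 : IntervalIntegrable (fun t : ℝ => (t:ℂ) • fderiv ℂ K (sg p x0 t))
        MeasureTheory.volume 0 1 := by
      apply ContinuousOn.intervalIntegrable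
      rw [uIcc_of_le zero_le_one]
      exact h1
    exact (intervalIntegrable_iff.1 h2).aestronglyMeasurable
  · refine Eventually.of_forall fun t ht x hx => ?_
    rw [uIoc_of_le zero_le_one] at ht
    rw [norm_smul, Complex.norm_real, Real.norm_of_nonneg ht.1.le]
    have h1 := hC (sg p x t) ⟨(x, t), ⟨ball_subset_closedBall hx, ht.1.le, ht.2⟩, rfl⟩
    have hC0 : 0 ≤ C := (norm_nonneg _).trans h1
    calc t * ‖fderiv ℂ K (sg p x t)‖ ≤ 1 * C := by
          gcongr
          exact ht.2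
      _ = C := one_mul C
  · exact intervalIntegrable_const
  · refine Eventually.of_forall fun t ht x hx => ?_
    rw [uIoc_of_le zero_le_one] at ht
    have h1 : HasFDerivAt K (fderiv ℂ K (sg p x t)) (sg p x t) :=
      (hKd.differentiableAt (hD.mem_nhds
        (sg_mem hc hp (hr1 (ball_subset_closedBall hx)) ht.1.le ht.2))).hasFDerivAt
    have h2 : HasFDerivAt (fun x : ℂ × ℂ => sg p x t)
        ((t:ℂ) • ContinuousLinearMap.id ℂ (ℂ × ℂ)) x := by
      unfold sg
      exact (((hasFDerivAt_id x).sub_const p).const_smul (t:ℂ)).const_add p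
    have h3 := h1.comp x h2
    refine h3.congr_fderiv ?_
    apply ContinuousLinearMap.ext
    intro v
    simp

/-- the decomposition -/
theorem gleason (hD : IsOpen D) (hc : Convex ℝ D) {F : ℂ × ℂ → ℂ} (hF : DifferentiableOn ℂ F D)
    {p z : ℂ × ℂ} (hp : p ∈ D) (hz : z ∈ D) :
    F z - F p = (z.1 - p.1) * gam F p (1, 0) z + (z.2 - p.2) * gam F p (0, 1) z := by
  rw [← ftc hD hc hF hp hz]
  unfold gam
  have h1 : ∀ t : ℝ, fderiv ℂ F (sg p z t) (z - p) =
      (z.1 - p.1) * fderiv ℂ F (sg p z t) (1, 0) + (z.2 - p.2) * fderiv ℂ F (sg p z t) (0, 1) := by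
    intro t
    have h2 : z - p = (z.1 - p.1) • ((1 : ℂ), (0 : ℂ)) + (z.2 - p.2) • ((0 : ℂ), (1 : ℂ)) := by
      ext <;> simp
    conv_lhs => rw [h2, map_add, map_smul, map_smul]
    simp only [smul_eq_mul]
  simp only [h1]
  rw [intervalIntegral.integral_add ((fd_int hD hc hF hp hz _).const_mul _)
    ((fd_int hD hc hF hp hz _).const_mul _), intervalIntegral.integral_const_mul,
    intervalIntegral.integral_const_mul]

end Pool.Agent.K9h23.Sc
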