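import Mathlib
import Pool.Agent.H720R2.Cor.Lim
import Pool.Agent.Y263.LF.Hinf
import Pool.Agent.K9h23.Sc.Gle

/-!
The Banach algebra of bounded holomorphic functions on a domain of `ℂ²`, characters, fibres over
boundary points of convex domains.
-/

set_option autoImplicit false
set_option linter.unusedSectionVars false

open MeasureTheory Metric Set Filter Topology Complex

namespace Pool.Agent.K9h23.Sc

open Pool.Agent.H720R2
open Pool.Agent.Y263.SC

variable (D : Set (ℂ × ℂ))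

/-- The algebra `H^∞(D)` of bounded holomorphic functions on `D`, with the supremum norm. -/
noncomputable def HD : Subalgebra ℂ (BoundedContinuousFunction D ℂ) where
  carrier := {φ | ∃ F : ℂ × ℂ → ℂ, DifferentiableOn ℂ F D ∧ ∀ z, φ z = F z}
  mul_mem' := by
    rintro a b ⟨F, hF, hF2⟩ ⟨G, hG, hG2⟩
    exact ⟨fun z => F z * G z, hF.fun_mul hG, fun z => by
      change a z * b z = F z * G z
      rw [← hF2, ← hG2]⟩
  add_mem' := by
    rintro a b ⟨F, hF, hF2⟩ ⟨G, hG, hG2⟩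
    exact ⟨fun z => F z + G z, hF.fun_add hG, fun z => by
      change a z + b z = F z + G z
      rw [← hF2, ← hG2]⟩
  algebraMap_mem' := fun c => ⟨fun _ => c, differentiableOn_const _, fun _ => rfl⟩

variable {D}

theorem HD_closed (hD : IsOpen D) :
    IsClosed ((HD D : Subalgebra ℂ (BoundedContinuousFunction D ℂ)) :
      Set (BoundedContinuousFunction D ℂ)) := by
  refine isClosed_of_closure_subset (fun φ hφ => ?_)
  have h1 : ∀ n : ℕ, ∃ ψ ∈ ((HD D : Subalgebra ℂ (BoundedContinuousFunction D ℂ)) :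
      Set (BoundedContinuousFunction D ℂ)), dist φ ψ < 1 / ((n : ℝ) + 1) :=
    fun n => Metric.mem_closure_iff.1 hφ _ (by positivity)
  choose ψ hψ hd using h1
  choose F hF hF2 using hψ
  set 𝒰 : Ultrafilter ℕ := Ultrafilter.of atTop with h𝒰
  have hle : (𝒰 : Filter ℕ) ≤ atTop := Ultrafilter.of_le _
  have hb : ∀ n, ∀ p ∈ D, ‖F n p‖ ≤ ‖φ‖ + 1 := by
    intro n p hp
    have h2 : F n p = ψ n ⟨p, hp⟩ := (hF2 n ⟨p, hp⟩).symm
    rw [h2]
    have h3 := (ψ n).norm_coe_le_norm ⟨p, hp⟩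
    have h4 : ‖ψ n‖ ≤ ‖φ‖ + ‖φ - ψ n‖ := by
      have := norm_sub_le φ (φ - ψ n)
      rwa [sub_sub_cancel] at this
    have h5 := hd n
    rw [dist_eq_norm] at h5
    have h6 : 1 / ((n : ℝ) + 1) ≤ 1 := by
      rw [div_le_one (by positivity)]
      have : (0 : ℝ) ≤ n := Nat.cast_nonneg n
      linarith
    linarith
  obtain ⟨V, hV1, -, hV3⟩ := Cor.ultra_lim hD 𝒰 F hF hb
  refine ⟨V, hV1, fun z => ?_⟩
  have h2 : Tendsto (fun n => F n z) 𝒰 (𝓝 (V z)) := hV3 z z.2
  have h3 : Tendsto (fun n => ψ n) atTop (𝓝 φ) := by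
    rw [tendsto_iff_dist_tendsto_zero]
    refine squeeze_zero (fun n => dist_nonneg) (fun n => ?_) tendsto_one_div_add_atTop_nhds_zero_nat
    rw [dist_comm]
    exact (hd n).le
  have h4 : Tendsto (fun n => ψ n z) atTop (𝓝 (φ z)) :=
    ((BoundedContinuousFunction.lipschitz_eval_const z).continuous.tendsto φ).comp h3
  have h5 : Tendsto (fun n => F n z) atTop (𝓝 (φ z)) := by
    refine h4.congr (fun n => hF2 n z)
  exact tendsto_nhds_unique (h5.mono_left hle) h2

/-- a bounded holomorphic function as an element of the algebra -/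
noncomputable def mkD (F : ℂ × ℂ → ℂ) (hF : DifferentiableOn ℂ F D) (C : ℝ)
    (hC : ∀ z ∈ D, ‖F z‖ ≤ C) : HD D :=
  ⟨BoundedContinuousFunction.ofNormedAddCommGroup (fun z : D => F z)
    (continuousOn_iff_continuous_domRestrict.1 hF.continuousOn) C (fun z => hC z z.2),
    F, hF, fun _ => rfl⟩

/-- evaluation at a point of `D` -/
noncomputable def ev (z : D) : HD D →ₐ[ℂ] ℂ where
  toFun φ := (φ : BoundedContinuousFunction D ℂ) z
  map_one' := rfl
  map_mul' _ _ := rfl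
  map_zero' := rfl
  map_add' _ _ := rfl
  commutes' _ := rfl

@[simp] theorem ev_mkD (F : ℂ × ℂ → ℂ) (hF : DifferentiableOn ℂ F D) (C : ℝ)
    (hC : ∀ z ∈ D, ‖F z‖ ≤ C) (z : D) : ev z (mkD F hF C hC) = F z := rfl

theorem ev_le (z : D) (φ : HD D) : ‖ev z φ‖ ≤ ‖φ‖ :=
  (φ : BoundedContinuousFunction D ℂ).norm_coe_le_norm z

theorem HD_ext {φ ψ : HD D} (h : ∀ z, ev z φ = ev z ψ) : φ = ψ :=
  Subtype.ext (BoundedContinuousFunction.ext h)

theorem HD_norm_le {φ : HD D} {C : ℝ} (hC : 0 ≤ C) (h : ∀ z, ‖ev z φ‖ ≤ C) : ‖φ‖ ≤ C :=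
  (BoundedContinuousFunction.norm_le hC).2 h

theorem HD_diff (φ : HD D) : ∃ F : ℂ × ℂ → ℂ, DifferentiableOn ℂ F D ∧ ∀ z, ev z φ = F z := φ.2

variable (φ : HD D →ₐ[ℂ] ℂ)

/-- an element whose values are bounded from below is invertible -/
theorem char_ne {u : HD D} {c : ℝ} (hc : 0 < c) (h : ∀ z, c ≤ ‖ev z u‖) : φ u ≠ 0 := by
  obtain ⟨F, hF, hF2⟩ := HD_diff u
  have hne : ∀ z ∈ D, F z ≠ 0 := by
    intro z hz h0
    have := h ⟨z, hz⟩
    rw [hF2, h0, norm_zero] at this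
    linarith
  set v : HD D := mkD (fun z => (F z)⁻¹) (hF.inv hne) c⁻¹ (fun z hz => by
    rw [norm_inv]
    have := h ⟨z, hz⟩
    rw [hF2] at this
    exact inv_anti₀ hc this) with hv
  have h1 : u * v = 1 := by
    refine HD_ext fun z => ?_
    rw [map_mul, map_one, hv, ev_mkD, hF2]
    exact mul_inv_cancel₀ (hne z z.2)
  intro h0
  have h2 := congrArg φ h1
  rw [map_mul, h0, zero_mul, map_one] at h2
  exact zero_ne_one h2

theorem alg_map (c : ℂ) : φ (algebraMap ℂ (HD D) c) = c := by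
  have := φ.commutes c
  simpa using this

theorem ev_alg (z : D) (c : ℂ) : ev z (algebraMap ℂ (HD D) c) = c := by
  have := (ev z).commutes c
  simpa using this

/-- characters are bounded by the norm -/
theorem char_le (u : HD D) : ‖φ u‖ ≤ ‖u‖ := by
  by_contra hcon
  push Not at hcon
  have h1 : φ (u - algebraMap ℂ (HD D) (φ u)) = 0 := by
    rw [map_sub, alg_map, sub_self]
  refine char_ne φ (c := ‖φ u‖ - ‖u‖) (by linarith) (fun z => ?_) h1
  rw [map_sub, ev_alg]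
  have h2 := norm_sub_norm_le (φ u) (ev z u)
  rw [norm_sub_rev] at h2
  have h3 := ev_le z u
  linarith

section lin

variable (hb : Bornology.IsBounded D)

/-- linear functions -/
theorem lin_bd (hb : Bornology.IsBounded D) (α : ℂ × ℂ →L[ℂ] ℂ) :
    ∃ C : ℝ, ∀ z ∈ D, ‖α z‖ ≤ C := by
  obtain ⟨R, hR⟩ := hb.exists_norm_le
  refine ⟨‖α‖ * R, fun z hz => (α.le_opNorm z).trans ?_⟩
  have := hR z hz
  gcongr

/-- the linear function as an element of the algebra -/
noncomputable def lin (hb : Bornology.IsBounded D) (α : ℂ × ℂ →L[ℂ] ℂ) : HD D :=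
  mkD α α.differentiable.differentiableOn (lin_bd hb α).choose (lin_bd hb α).choose_spec

@[simp] theorem ev_lin (hb : Bornology.IsBounded D) (α : ℂ × ℂ →L[ℂ] ℂ) (z : D) :
    ev z (lin hb α) = α z := rfl

/-- the point of `ℂ²` under a character -/
noncomputable def pt (hb : Bornology.IsBounded D) : ℂ × ℂ :=
  (φ (lin hb (ContinuousLinearMap.fst ℂ ℂ ℂ)), φ (lin hb (ContinuousLinearMap.snd ℂ ℂ ℂ)))

theorem char_lin (hb : Bornology.IsBounded D) (α : ℂ × ℂ →L[ℂ] ℂ) :
    φ (lin hb α) = α (pt φ hb) := by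
  have h1 : lin hb α = α (1, 0) • lin hb (ContinuousLinearMap.fst ℂ ℂ ℂ) +
      α (0, 1) • lin hb (ContinuousLinearMap.snd ℂ ℂ ℂ) := by
    refine HD_ext fun z => ?_
    rw [map_add, map_smul, map_smul, ev_lin, ev_lin, ev_lin]
    have h2 : (z : ℂ × ℂ) = z.1.1 • ((1 : ℂ), (0 : ℂ)) + z.1.2 • ((0 : ℂ), (1 : ℂ)) := by
      ext <;> simp
    conv_lhs => rw [h2, map_add, map_smul, map_smul]
    simp only [smul_eq_mul, ContinuousLinearMap.coe_fst', ContinuousLinearMap.coe_snd']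
    ring
  have h3 : pt φ hb = (pt φ hb).1 • ((1 : ℂ), (0 : ℂ)) + (pt φ hb).2 • ((0 : ℂ), (1 : ℂ)) := by
    ext <;> simp
  rw [h1, map_add, map_smul, map_smul]
  conv_rhs => rw [h3, map_add, map_smul, map_smul]
  simp only [smul_eq_mul, pt]
  ring

theorem pt_mem (hb : Bornology.IsBounded D) (hc : Convex ℝ D) : pt φ hb ∈ closure D := by
  by_contra hcon
  obtain ⟨f, u, hf, hu⟩ := RCLike.geometric_hahn_banach_closed_point (𝕜 := ℂ) hc.closure
    isClosed_closure hcon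
  have h1 : φ (lin hb f - algebraMap ℂ (HD D) (f (pt φ hb))) = 0 := by
    rw [map_sub, alg_map, char_lin, sub_self]
  refine char_ne φ (c := RCLike.re (f (pt φ hb)) - u) (by linarith) (fun z => ?_) h1
  rw [map_sub, ev_alg, ev_lin]
  have h2 := hf z (subset_closure z.2)
  have h3 := RCLike.abs_re_le_norm (f z - f (pt φ hb))
  rw [map_sub] at h3
  have h4 := neg_abs_le (RCLike.re (f (z : ℂ × ℂ)) - RCLike.re (f (pt φ hb)))
  linarith

/-- an element which is small near a boundary point -/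
theorem fibre (hb : Bornology.IsBounded D) (α : ℂ × ℂ →L[ℂ] ℂ)
    (hα : ∀ z ∈ D, (α z).re < (α (pt φ hb)).re)
    (hs : ∀ r : ℝ, 0 < r → ∃ η : ℝ, 0 < η ∧ ∀ z ∈ D, r ≤ dist z (pt φ hb) →
      η ≤ (α (pt φ hb)).re - (α z).re) {u : HD D} {ε : ℝ} (hε : 0 < ε)
    (hu : ∀ᶠ z in 𝓝[D] (pt φ hb), ∀ hz : z ∈ D, ‖ev ⟨z, hz⟩ u‖ ≤ ε) : ‖φ u‖ ≤ ε := by
  set p := pt φ hb with hp
  have hre : ∀ z ∈ D, 1 + ((α p).re - (α z).re) ≤ ‖1 + (α p - α z)‖ := by
    intro z _
    have := Complex.re_le_norm (1 + (α p - α z))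
    simpa using this
  have hne : ∀ z ∈ D, 1 + (α p - α z) ≠ 0 := by
    intro z hz h0
    have h1 := hre z hz
    rw [h0, norm_zero] at h1
    have := hα z hz
    linarith
  set h : HD D := mkD (fun z => (1 + (α p - α z))⁻¹)
    (((differentiableOn_const _).fun_add ((differentiableOn_const _).fun_sub
      α.differentiable.differentiableOn)).inv hne) 1 (fun z hz => by
      rw [norm_inv]
      refine inv_le_one_of_one_le₀ ?_
      have h1 := hre z hz
      have h2 := hα z hz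
      linarith) with hh
  have hφ : φ h = 1 := by
    have h1 : h * (1 + (algebraMap ℂ (HD D) (α p) - lin hb α)) = 1 := by
      refine HD_ext fun z => ?_
      rw [map_mul, map_add, map_sub, map_one, ev_alg, ev_lin, hh, ev_mkD]
      exact inv_mul_cancel₀ (hne z z.2)
    have h2 := congrArg φ h1
    rw [map_mul, map_add, map_sub, map_one, alg_map, char_lin, ← hp, sub_self, add_zero,
      mul_one] at h2
    exact h2
  obtain ⟨r, hr, hr2⟩ := Metric.mem_nhdsWithin_iff.1 hu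
  obtain ⟨η, hη, hη2⟩ := hs r hr
  have h1 : Tendsto (fun m : ℕ => ‖u‖ * ((1 + η)⁻¹) ^ m) atTop (𝓝 (‖u‖ * 0)) := by
    refine (tendsto_pow_atTop_nhds_zero_of_lt_one (by positivity) ?_).const_mul _
    exact inv_lt_one_of_one_lt₀ (by linarith)
  rw [mul_zero] at h1
  obtain ⟨m, hm⟩ := (h1.eventually (gt_mem_nhds hε)).exists
  have h2 : ‖u * h ^ m‖ ≤ ε := by
    refine HD_norm_le hε.le fun z => ?_
    rw [map_mul, map_pow, norm_mul, norm_pow, hh, ev_mkD, norm_inv]
    have h4 := hre z z.2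
    have h5 := hα z z.2
    by_cases hz : dist (z : ℂ × ℂ) p < r
    · have h3 : ‖ev z u‖ ≤ ε := hr2 ⟨hz, z.2⟩ z.2
      have h6 : ‖1 + (α p - α z)‖⁻¹ ^ m ≤ 1 :=
        pow_le_one₀ (by positivity) (inv_le_one_of_one_le₀ (by linarith))
      calc ‖ev z u‖ * ‖1 + (α p - α z)‖⁻¹ ^ m ≤ ε * 1 := by gcongr
        _ = ε := mul_one _
    · push Not at hz
      have h3 := ev_le z u
      have h7 := hη2 z z.2 hz
      have h6 : ‖1 + (α p - α z)‖⁻¹ ≤ (1 + η)⁻¹ := inv_anti₀ (by linarith) (by linarith)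
      calc ‖ev z u‖ * ‖1 + (α p - α z)‖⁻¹ ^ m ≤ ‖u‖ * ((1 + η)⁻¹) ^ m := by gcongr
        _ ≤ ε := hm.le
  have h3 := char_le φ (u * h ^ m)
  rw [map_mul, map_pow, hφ, one_pow, mul_one] at h3
  exact h3.trans h2

end lin

end Pool.Agent.K9h23.Sc
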