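import Mathlib
import Pool.Agent.K9h23.Sc.Alg
import Pool.Agent.Y263.SC.Fin

/-!
Local criterion for the solvability of the Bezout equation on strictly convex domains of `ℂ²`.
-/

set_option autoImplicit false
set_option linter.unusedSectionVars false

open MeasureTheory Metric Set Filter Topology Complex

namespace Pool.Agent.K9h23.Sc

open Pool.Agent.Y263.SC

variable {D O : Set (ℂ × ℂ)} {ρ : ℂ × ℂ → ℝ}

theorem rho_closure (h : StrC D O ρ) {p : ℂ × ℂ} (hp : p ∈ closure D) : ρ p ≤ 0 := by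
  have h1 : ContinuousWithinAt ρ D p :=
    (h.C2.continuousOn.continuousAt (h.Oo.mem_nhds (h.cl hp))).continuousWithinAt
  have hne : (𝓝[D] p).NeBot := mem_closure_iff_nhdsWithin_neBot.1 hp
  refine le_of_tendsto h1 ?_
  filter_upwards [self_mem_nhdsWithin] with z hz
  rw [h.eq] at hz
  exact hz.2.le

theorem rho_frontier (h : StrC D O ρ) {p : ℂ × ℂ} (hp : p ∈ frontier D) : ρ p = 0 := by
  rw [h.op.frontier_eq] at hp
  refine le_antisymm (rho_closure h hp.1) ?_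
  by_contra hcon
  push Not at hcon
  apply hp.2
  rw [h.eq]
  exact ⟨h.cl hp.1, hcon⟩

theorem mem_Nb {a b : ℂ × ℂ → ℂ} {l L d : ℝ} (h : SCD D ρ a b l L d) {p : ℂ × ℂ}
    (hp : p ∈ closure D) : p ∈ Nb D d := by
  obtain ⟨q, hq, hpq⟩ := Metric.mem_closure_iff.1 hp (d / 2) (half_pos h.d0)
  refine ⟨q, hq, ?_⟩
  rw [dist_eq_norm] at hpq
  have h1 := norm_fst_le (p - q)
  have h2 := norm_snd_le (p - q)
  simp only [Prod.fst_sub, Prod.snd_sub] at h1 h2
  linarith

/-- strict convexity -/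
theorem mid_mem {a b : ℂ × ℂ → ℂ} {l L d : ℝ} (hs : StrC D O ρ) (h : SCD D ρ a b l L d)
    {p z : ℂ × ℂ} (hp : p ∈ closure D) (hz : z ∈ closure D) (hne : z ≠ p) :
    (1 / 2 : ℂ) • (p + z) ∈ D := by
  set m := (1 / 2 : ℂ) • (p + z) with hm
  have hmN : m ∈ Nb D d := by
    have := h.cvx _ (mem_Nb h hp) _ (mem_Nb h hz) (1 / 2) (by norm_num) (by norm_num)
    convert this using 1
    rw [hm, smul_add]
    norm_num
  refine h.mem _ hmN ?_
  have c1 := h.conv _ hmN _ (mem_Nb h hp)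
  have c2 := h.conv _ hmN _ (mem_Nb h hz)
  have e1 : (a m * (p.1 - m.1) + b m * (p.2 - m.2)).re +
      (a m * (z.1 - m.1) + b m * (z.2 - m.2)).re = 0 := by
    rw [← Complex.add_re]
    have e3 : m.1 = (1 / 2 : ℂ) * (p.1 + z.1) := rfl
    have e4 : m.2 = (1 / 2 : ℂ) * (p.2 + z.2) := rfl
    have : a m * (p.1 - m.1) + b m * (p.2 - m.2) + (a m * (z.1 - m.1) + b m * (z.2 - m.2)) = 0 := by
      rw [e3, e4]
      ring
    rw [this, Complex.zero_re]
  have hl := h.l0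
  have h3 : 0 < l * (‖p.1 - m.1‖ ^ 2 + ‖p.2 - m.2‖ ^ 2) := by
    apply mul_pos hl
    by_contra hcon
    push Not at hcon
    have h5 := sq_nonneg ‖p.1 - m.1‖
    have h6 := sq_nonneg ‖p.2 - m.2‖
    have h7 : ‖p.1 - m.1‖ ^ 2 = 0 := by linarith
    have h8 : ‖p.2 - m.2‖ ^ 2 = 0 := by linarith
    rw [sq_eq_zero_iff, norm_eq_zero, sub_eq_zero] at h7 h8
    have e3 : m.1 = (1 / 2 : ℂ) * (p.1 + z.1) := rfl
    have e4 : m.2 = (1 / 2 : ℂ) * (p.2 + z.2) := rfl
    apply hne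
    rw [e3] at h7
    rw [e4] at h8
    ext
    · linear_combination (-2 : ℂ) * h7
    · linear_combination (-2 : ℂ) * h8
  have h4 : 0 ≤ l * (‖z.1 - m.1‖ ^ 2 + ‖z.2 - m.2‖ ^ 2) := by positivity
  have h5 := rho_closure hs hp
  have h6 := rho_closure hs hz
  linarith

theorem sep {a b : ℂ × ℂ → ℂ} {l L d : ℝ} (hs : StrC D O ρ) (h : SCD D ρ a b l L d)
    {p : ℂ × ℂ} (hp : p ∈ closure D) (α : ℂ × ℂ →L[ℂ] ℂ)
    (hα : ∀ z ∈ D, (α z).re < (α p).re) {r : ℝ} (hr : 0 < r) :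
    ∃ η : ℝ, 0 < η ∧ ∀ z ∈ D, r ≤ dist z p → η ≤ (α p).re - (α z).re := by
  set K : Set (ℂ × ℂ) := closure D ∩ {z | r ≤ dist z p} with hK
  have hKc : IsCompact K := hs.bdd.isCompact_closure.inter_right
    (isClosed_le continuous_const (continuous_id.dist continuous_const))
  have hcont : ContinuousOn (fun z => (α p).re - (α z).re) K := by fun_prop
  rcases K.eq_empty_or_nonempty with hKe | hKn
  · refine ⟨1, one_pos, fun z hz hr2 => ?_⟩
    have : z ∈ K := ⟨subset_closure hz, hr2⟩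
    rw [hKe] at this
    exact this.elim
  obtain ⟨z0, hz0, hmin⟩ := hKc.exists_isMinOn hKn hcont
  refine ⟨(α p).re - (α z0).re, ?_, fun z hz hr2 => hmin ⟨subset_closure hz, hr2⟩⟩
  have hne : z0 ≠ p := by
    intro h0
    have := hz0.2
    rw [h0, Set.mem_ofPred_eq, dist_self] at this
    linarith
  have h1 := hα _ (mid_mem hs h hp hz0.1 hne)
  rw [map_smul, map_add, smul_eq_mul] at h1
  have h2 : ((1 / 2 : ℂ) * (α p + α z0)).re = 1 / 2 * ((α p).re + (α z0).re) := by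
    rw [show (1 / 2 : ℂ) = ((1 / 2 : ℝ) : ℂ) by norm_num, Complex.re_ofReal_mul, Complex.add_re]
  rw [h2] at h1
  linarith

/-- the interior case -/
theorem char_interior (hs : StrC D O ρ) (φ : HD D →ₐ[ℂ] ℂ)
    (hp : pt φ hs.bdd ∈ D) (u : HD D) : φ u = ev ⟨_, hp⟩ u := by
  have hne : D.Nonempty := ⟨_, hp⟩
  obtain ⟨l, L, d, B, h, -⟩ := hs.scd hne
  obtain ⟨R, hR⟩ := hs.bdd.exists_norm_le
  have hR2 : ∀ x ∈ D, ∀ y ∈ D, n1 (x - y) ≤ 4 * R := by
    intro x hx y hy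
    have h1 := norm_fst_le (x - y)
    have h2 := norm_snd_le (x - y)
    have h3 := norm_sub_le x y
    have h4 := hR x hx
    have h5 := hR y hy
    unfold n1
    linarith
  set p := pt φ hs.bdd with hpdef
  obtain ⟨C1, hC1⟩ := gam_bd h hs.cvx hR2 hp (e := (1, 0)) (by simp [n1])
  obtain ⟨C2, hC2⟩ := gam_bd h hs.cvx hR2 hp (e := (0, 1)) (by simp [n1])
  obtain ⟨F, hF, hF2⟩ := HD_diff u
  have hM : ∀ z ∈ D, ‖F z‖ ≤ ‖u‖ := by
    intro z hz
    have := ev_le ⟨z, hz⟩ u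
    rwa [hF2] at this
  have h1 : u - algebraMap ℂ (HD D) (F p) =
      (lin hs.bdd (ContinuousLinearMap.fst ℂ ℂ ℂ) - algebraMap ℂ (HD D) p.1) *
        mkD (gam F p (1, 0)) (gam_diff hs.op hs.cvx hF _ hp) _ (hC1 F hF _ hM) +
      (lin hs.bdd (ContinuousLinearMap.snd ℂ ℂ ℂ) - algebraMap ℂ (HD D) p.2) *
        mkD (gam F p (0, 1)) (gam_diff hs.op hs.cvx hF _ hp) _ (hC2 F hF _ hM) := by
    refine HD_ext fun z => ?_
    rw [map_add, map_mul, map_mul, map_sub, map_sub, map_sub, ev_alg, ev_alg, ev_alg, ev_lin,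
      ev_lin, ev_mkD, ev_mkD, hF2]
    exact gleason hs.op hs.cvx hF hp z.2
  have h2 := congrArg φ h1
  rw [map_add, map_mul, map_mul, map_sub, map_sub, map_sub, alg_map, alg_map, alg_map] at h2
  have e1 : φ (lin hs.bdd (ContinuousLinearMap.fst ℂ ℂ ℂ)) = p.1 := rfl
  have e2 : φ (lin hs.bdd (ContinuousLinearMap.snd ℂ ℂ ℂ)) = p.2 := rfl
  rw [e1, e2, sub_self, sub_self, zero_mul, zero_mul, add_zero, sub_eq_zero] at h2
  rw [h2, hF2]

/-- the boundary case -/
theorem char_boundary (hs : StrC D O ρ) (φ : HD D →ₐ[ℂ] ℂ) {N : ℕ} (F : Fin N → HD D)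
    (hF : ∀ j, φ (F j) = 0) (hp : pt φ hs.bdd ∈ closure D) (k : Fin N) (S : Finset (Fin N))
    {c : ℝ} (hc : 0 < c)
    (hlow : ∀ᶠ z in 𝓝[D] (pt φ hs.bdd), ∀ hz : z ∈ D,
      c ≤ ‖ev ⟨z, hz⟩ (F k)‖ + ∑ j ∈ S, ‖ev ⟨z, hz⟩ (F j)‖)
    (α : ℂ × ℂ →L[ℂ] ℂ) (hα : ∀ z ∈ D, (α z).re < (α (pt φ hs.bdd)).re)
    (hasy : ∀ ε : ℝ, 0 < ε → ∀ j ∈ S, ∃ u : ℂ → ℂ, DifferentiableOn ℂ u (α '' D) ∧
      (∃ M : ℝ, ∀ w ∈ α '' D, ‖u w‖ ≤ M) ∧
      ∀ᶠ z in 𝓝[D] (pt φ hs.bdd), ∀ hz : z ∈ D, ‖ev ⟨z, hz⟩ (F j) - u (α z)‖ ≤ ε) : False := by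
  classical
  set p := pt φ hs.bdd with hpdef
  have hne : D.Nonempty := closure_nonempty_iff.1 ⟨_, hp⟩
  obtain ⟨z1, hz1⟩ := hne
  obtain ⟨l, L, d, B, h, -⟩ := hs.scd ⟨z1, hz1⟩
  have hα0 : α ≠ 0 := by
    intro h0
    have := hα z1 hz1
    rw [h0] at this
    simp at this
  set ε : ℝ := c / (8 * (S.card + 1)) with hε
  have hε0 : 0 < ε := by positivity
  choose! u hud hub hua using hasy ε hε0
  choose! M hM using hub
  -- the elements
  set A : Fin N → HD D := fun j => if hj : j ∈ S then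
    mkD (fun z => u j (α z)) ((hud j hj).comp α.differentiable.differentiableOn
      (fun z hz => mem_image_of_mem _ hz)) (M j) (fun z hz => hM j hj _ (mem_image_of_mem _ hz))
    else 0 with hA
  have hevA : ∀ j ∈ S, ∀ z : D, ev z (A j) = u j (α z) := by
    intro j hj z
    rw [hA]
    simp only [dif_pos hj]
    rfl
  have hφA : ∀ j ∈ S, ‖φ (A j)‖ ≤ ε := by
    intro j hj
    have h1 : ‖φ (F j - A j)‖ ≤ ε := by
      refine fibre φ hs.bdd α hα (fun r hr => sep hs h hp α hα hr) hε0 ?_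
      filter_upwards [hua j hj] with z hz hzD
      rw [map_sub, hevA j hj]
      exact hz hzD
    rw [map_sub, hF j, zero_sub, norm_neg] at h1
    exact h1
  -- near p
  have hnear : ∀ᶠ z in 𝓝[D] p, ∀ hz : z ∈ D, c ≤ ‖ev ⟨z, hz⟩ (F k)‖ +
      ∑ j ∈ S, (‖u j (α z) - φ (A j)‖ + 2 * ε) := by
    have h1 : ∀ᶠ z in 𝓝[D] p, ∀ j ∈ S, ∀ hz : z ∈ D, ‖ev ⟨z, hz⟩ (F j) - u j (α z)‖ ≤ ε :=
      (Filter.eventually_all_finset S).2 hua
    filter_upwards [hlow, h1] with z h2 h3 hz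
    refine (h2 hz).trans ?_
    gcongr with j hj
    have h4 := h3 j hj hz
    have h5 := hφA j hj
    have e : ev ⟨z, hz⟩ (F j) = (ev ⟨z, hz⟩ (F j) - u j (α z)) + (u j (α z) - φ (A j)) + φ (A j) := by
      ring
    calc ‖ev ⟨z, hz⟩ (F j)‖ = ‖(ev ⟨z, hz⟩ (F j) - u j (α z)) + (u j (α z) - φ (A j)) +
          φ (A j)‖ := by rw [← e]
      _ ≤ ‖ev ⟨z, hz⟩ (F j) - u j (α z)‖ + ‖u j (α z) - φ (A j)‖ + ‖φ (A j)‖ :=
          norm_add₃_le
      _ ≤ _ := by linarith
  obtain ⟨r, hr, hr2⟩ := Metric.mem_nhdsWithin_iff.1 hnear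
  obtain ⟨η, hη, hη2⟩ := sep hs h hp α hα hr
  -- bounds
  obtain ⟨Rα, hRα⟩ := lin_bd hs.bdd α
  set R0 : ℝ := 1 + |Rα| + ‖α p‖ + ‖F k‖ + ∑ j, (|M j| + ‖φ (A j)‖) with hR0
  have hsum0 : 0 ≤ ∑ j, (|M j| + ‖φ (A j)‖) := Finset.sum_nonneg fun _ _ => by positivity
  have hR01 : 1 ≤ R0 := by
    rw [hR0]
    have := abs_nonneg Rα
    have := norm_nonneg (α p)
    have := norm_nonneg (F k)
    linarith
  have hR00 : 0 < R0 := by linarith
  have hRc : (R0 : ℂ) ≠ 0 := by exact_mod_cast hR00.ne'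
  have hRn : ‖(R0 : ℂ)‖ = R0 := by rw [Complex.norm_real, Real.norm_of_nonneg hR00.le]
  set t : ℝ := min η (c / (4 * (S.card + 1))) with ht
  have ht0 : 0 < t := lt_min hη (by positivity)
  obtain ⟨C, hC0, HC⟩ := one_lin hs (N + 1) α hα0 (δ := t / R0) (by positivity)
  set b : Fin (N + 1) → ℂ → ℂ := Fin.cons (fun w => (w - α p) / R0)
    (fun j w => if j ∈ S then (u j w - φ (A j)) / R0 else 0) with hb
  have hb0 : ∀ w, b 0 w = (w - α p) / R0 := fun w => by rw [hb]; rfl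
  have hbs : ∀ j w, b (Fin.succ j) w = if j ∈ S then (u j w - φ (A j)) / R0 else 0 :=
    fun j w => by rw [hb]; rfl
  obtain ⟨Fk, hFk, hFk2⟩ := HD_diff (F k)
  obtain ⟨g, g0, g1, g2, g3, g4, g5⟩ := HC b (by
      intro i
      refine Fin.cases ?_ (fun j => ?_) i
      · have : b 0 = fun w => (w - α p) / R0 := funext hb0
        rw [this]
        fun_prop
      · by_cases hj : j ∈ S
        · have : b j.succ = fun w => (u j w - φ (A j)) / R0 := funext fun w => by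
            rw [hbs, if_pos hj]
          rw [this]
          exact ((hud j hj).sub_const _).div_const _
        · have : b j.succ = fun w => 0 := funext fun w => by
            rw [hbs, if_neg hj]
          rw [this]
          exact differentiableOn_const _)
    (by
      intro i
      refine Fin.cases ?_ (fun j => ?_) i
      · rintro _ ⟨z, hz, rfl⟩
        rw [hb0, norm_div, hRn, div_le_one hR00]
        have h1 := norm_sub_le (α z) (α p)
        have h2 := hRα z hz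
        have h3 := le_abs_self Rα
        have := norm_nonneg (F k)
        rw [hR0]
        linarith
      · rintro w hw
        rw [hbs]
        by_cases hj : j ∈ S
        · rw [if_pos hj, norm_div, hRn, div_le_one hR00]
          have h1 := norm_sub_le (u j w) (φ (A j))
          have h2 := hM j hj w hw
          have h3 := le_abs_self (M j)
          have h4 := Finset.single_le_sum (f := fun j => |M j| + ‖φ (A j)‖)
            (fun _ _ => by positivity) (Finset.mem_univ j)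
          have := norm_nonneg (F k)
          have := norm_nonneg (α p)
          have := abs_nonneg Rα
          rw [hR0]
          linarith
        · rw [if_neg hj, norm_zero]
          exact zero_le_one)
    (fun z => Fk z / R0) (by
      simp only [div_eq_mul_inv]
      exact hFk.mul_const _) (by
      intro z hz
      rw [norm_div, hRn, div_le_one hR00]
      have h1 := ev_le ⟨z, hz⟩ (F k)
      rw [hFk2] at h1
      have := norm_nonneg (α p)
      have := abs_nonneg Rα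
      rw [hR0]
      linarith)
    (by
      intro z hz hi
      rw [norm_div, hRn]
      have h0 := hi 0
      rw [hb0, norm_div, hRn, div_lt_div_iff_of_pos_right hR00] at h0
      have hzr : dist z p < r := by
        by_contra hcon
        push Not at hcon
        have h1 := hη2 z hz hcon
        have h2 : (α p).re - (α z).re ≤ ‖α z - α p‖ := by
          have := Complex.abs_re_le_norm (α z - α p)
          rw [Complex.sub_re] at this
          have := neg_abs_le ((α z).re - (α p).re)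
          linarith
        have h3 : t ≤ η := min_le_left _ _
        linarith
      have h1 := hr2 ⟨hzr, hz⟩ hz
      have h2 : ∑ j ∈ S, (‖u j (α z) - φ (A j)‖ + 2 * ε) ≤ ∑ _j ∈ S, (t + 2 * ε) := by
        gcongr with j hj
        have h3 := hi j.succ
        rw [hbs, if_pos hj, norm_div, hRn, div_lt_div_iff_of_pos_right hR00] at h3
        exact h3.le
      rw [Finset.sum_const, nsmul_eq_mul] at h2
      have h3 : t ≤ c / (4 * (S.card + 1)) := min_le_right _ _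
      have hS0 : (0 : ℝ) ≤ S.card := Nat.cast_nonneg _
      have h4 : (S.card : ℝ) * (t + 2 * ε) + t ≤ c := by
        calc (S.card : ℝ) * (t + 2 * ε) + t ≤ (S.card + 1) * (t + 2 * ε) := by nlinarith
          _ ≤ (S.card + 1) * (c / (4 * (S.card + 1)) + 2 * (c / (8 * (S.card + 1)))) := by
              gcongr
          _ = c / 2 := by field_simp; norm_num
          _ ≤ c := by linarith
      rw [hFk2] at h1
      gcongr
      change t ≤ ‖Fk z‖
      linarith)
  -- the contradiction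
  have hid : ∑ i, (Fin.cons ((lin hs.bdd α - algebraMap ℂ (HD D) (α p)) *
        algebraMap ℂ (HD D) (R0 : ℂ)⁻¹)
      (fun j => if j ∈ S then (A j - algebraMap ℂ (HD D) (φ (A j))) *
        algebraMap ℂ (HD D) (R0 : ℂ)⁻¹ else 0) : Fin (N + 1) → HD D) i *
        mkD (g i) (g1 i) C (g3 i) +
      F k * algebraMap ℂ (HD D) (R0 : ℂ)⁻¹ * mkD g0 g2 C g4 = 1 := by
    refine HD_ext fun z => ?_
    rw [map_add, map_sum, map_mul, map_mul, map_one, ev_alg, ev_mkD, hFk2]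
    have h1 := g5 z z.2
    rw [← h1]
    simp only [div_eq_mul_inv]
    congr 1
    refine Finset.sum_congr rfl fun i _ => ?_
    refine Fin.cases ?_ (fun j => ?_) i
    · rw [map_mul, ev_mkD, hb0, Fin.cons_zero, map_mul, map_sub, ev_lin, ev_alg, ev_alg,
        div_eq_mul_inv]
    · rw [map_mul, ev_mkD, hbs, Fin.cons_succ]
      by_cases hj : j ∈ S
      · rw [if_pos hj, if_pos hj, map_mul, map_sub, ev_alg, ev_alg, hevA j hj, div_eq_mul_inv]
      · rw [if_neg hj, if_neg hj, map_zero]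
  have h2 := congrArg φ hid
  rw [map_add, map_sum, map_mul, map_mul, hF k, zero_mul, zero_mul, add_zero, map_one] at h2
  have h3 : ∀ i : Fin (N + 1), φ ((Fin.cons ((lin hs.bdd α - algebraMap ℂ (HD D) (α p)) *
        algebraMap ℂ (HD D) (R0 : ℂ)⁻¹)
      (fun j => if j ∈ S then (A j - algebraMap ℂ (HD D) (φ (A j))) *
        algebraMap ℂ (HD D) (R0 : ℂ)⁻¹ else 0) : Fin (N + 1) → HD D) i *
        mkD (g i) (g1 i) C (g3 i)) = 0 := by
    intro i
    refine Fin.cases ?_ (fun j => ?_) i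
    · rw [map_mul, Fin.cons_zero, map_mul, map_sub, char_lin, alg_map, ← hpdef, sub_self, zero_mul,
        zero_mul]
    · rw [map_mul, Fin.cons_succ]
      by_cases hj : j ∈ S
      · rw [if_pos hj, map_mul, map_sub, alg_map, sub_self, zero_mul, zero_mul]
      · rw [if_neg hj, map_zero, zero_mul]
  rw [Finset.sum_eq_zero (fun i _ => h3 i)] at h2
  exact zero_ne_one h2

/-- **Local criterion.** -/
theorem crit (hs : StrC D O ρ) {N : ℕ} (f : Fin N → ℂ × ℂ → ℂ)
    (hf : ∀ j, DifferentiableOn ℂ (f j) D) (hb : ∀ j, ∃ M : ℝ, ∀ z ∈ D, ‖f j z‖ ≤ M)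
    (h0 : ∀ z ∈ D, ∃ j, f j z ≠ 0)
    (hloc : ∀ p ∈ frontier D, ∃ (k : Fin N) (S : Finset (Fin N)) (c : ℝ) (α : ℂ × ℂ →L[ℂ] ℂ),
      0 < c ∧ (∀ᶠ z in 𝓝[D] p, c ≤ ‖f k z‖ + ∑ j ∈ S, ‖f j z‖) ∧
      (∀ z ∈ D, (α z).re < (α p).re) ∧
      ∀ ε : ℝ, 0 < ε → ∀ j ∈ S, ∃ u : ℂ → ℂ, DifferentiableOn ℂ u (α '' D) ∧
        (∃ M : ℝ, ∀ w ∈ α '' D, ‖u w‖ ≤ M) ∧ ∀ᶠ z in 𝓝[D] p, ‖f j z - u (α z)‖ ≤ ε) :
    ∃ g : Fin N → ℂ × ℂ → ℂ, (∀ j, DifferentiableOn ℂ (g j) D) ∧
      (∃ C : ℝ, ∀ j, ∀ z ∈ D, ‖g j z‖ ≤ C) ∧ ∀ z ∈ D, ∑ j, f j z * g j z = 1 := by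
  classical
  choose M hM using hb
  set F : Fin N → HD D := fun j => mkD (f j) (hf j) (M j) (hM j) with hF
  by_cases hno : ∃ g : Fin N → HD D, ∑ i, F i * g i = 1
  · obtain ⟨g, hg⟩ := hno
    choose G hG hG2 using fun j => HD_diff (g j)
    refine ⟨G, hG, ⟨∑ j, ‖g j‖, fun j z hz => ?_⟩, fun z hz => ?_⟩
    · have h1 := ev_le ⟨z, hz⟩ (g j)
      rw [hG2] at h1
      exact h1.trans (Finset.single_le_sum (f := fun j => ‖g j‖) (fun _ _ => norm_nonneg _)
        (Finset.mem_univ j))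
    · have h1 := congrArg (ev ⟨z, hz⟩) hg
      rw [map_sum, map_one] at h1
      rw [← h1]
      refine Finset.sum_congr rfl fun j _ => ?_
      rw [map_mul, hG2, hF]
      rfl
  · exfalso
    have : CompleteSpace (HD D) := (HD_closed hs.op).completeSpace_coe
    obtain ⟨φ', hφ'⟩ := Pool.Agent.Y263.LF.exists_char F hno
    set φ : HD D →ₐ[ℂ] ℂ := WeakDual.CharacterSpace.toAlgHom φ' with hφ
    have hφF : ∀ j, φ (F j) = 0 := hφ'
    have hp := pt_mem φ hs.bdd hs.cvx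
    by_cases hpD : pt φ hs.bdd ∈ D
    · obtain ⟨j, hj⟩ := h0 _ hpD
      have h1 := char_interior hs φ hpD (F j)
      rw [hφF j] at h1
      exact hj h1.symm
    · have hfr : pt φ hs.bdd ∈ frontier D := by
        rw [hs.op.frontier_eq]
        exact ⟨hp, hpD⟩
      obtain ⟨k, S, c, α, hc, hlow, hα, hasy⟩ := hloc _ hfr
      refine char_boundary hs φ F hφF hp k S hc ?_ α hα ?_
      · filter_upwards [hlow] with z hz hzD
        exact hz
      · intro ε hε j hj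
        obtain ⟨u, hu1, hu2, hu3⟩ := hasy ε hε j hj
        refine ⟨u, hu1, hu2, ?_⟩
        filter_upwards [hu3] with z hz hzD
        exact hz

end Pool.Agent.K9h23.Sc
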