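import Mathlib
import Pool.Agent.K9h23.Sc.Crit

/-!
The algebra generated by the functions of one linear coordinate and by the functions continuous on
the closure, on strictly convex domains of `ℂ²`.
-/

set_option autoImplicit false
set_option linter.unusedSectionVars false

open MeasureTheory Metric Set Filter Topology Complex

namespace Pool.Agent.K9h23.Sc

open Pool.Agent.Y263.SC

variable {D O : Set (ℂ × ℂ)} {ρ : ℂ × ℂ → ℝ}

/-- the complex gradient as a linear form -/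
noncomputable def nr (ρ : ℂ × ℂ → ℝ) (p : ℂ × ℂ) : ℂ × ℂ →L[ℂ] ℂ :=
  (2 * fa ρ p) • ContinuousLinearMap.fst ℂ ℂ ℂ + (2 * fb ρ p) • ContinuousLinearMap.snd ℂ ℂ ℂ

theorem nr_apply (ρ : ℂ × ℂ → ℝ) (p v : ℂ × ℂ) :
    nr ρ p v = 2 * (fa ρ p * v.1 + fb ρ p * v.2) := by
  simp [nr]
  ring

theorem nr_re (ρ : ℂ × ℂ → ℝ) (p v : ℂ × ℂ) : (nr ρ p v).re = fderiv ℝ ρ p v := by
  rw [nr_apply, ← re_fa_fb, show (2 : ℂ) = ((2 : ℝ) : ℂ) by norm_num, Complex.re_ofReal_mul]

theorem nr_supp {l L d : ℝ} (hs : StrC D O ρ) (h : SCD D ρ (fa ρ) (fb ρ) l L d)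
    {p : ℂ × ℂ} (hp : p ∈ frontier D) : ∀ z ∈ D, (nr ρ p z).re < (nr ρ p p).re := by
  intro z hz
  have h1 := h.conv _ (mem_Nb h (frontier_subset_closure hp)) _ (h.sub hz)
  rw [rho_frontier hs hp] at h1
  have h2 := h.neg z hz
  have h3 : 0 ≤ l * (‖z.1 - p.1‖ ^ 2 + ‖z.2 - p.2‖ ^ 2) := by
    have := h.l0
    positivity
  have h4 : (nr ρ p z).re - (nr ρ p p).re =
      2 * (fa ρ p * (z.1 - p.1) + fb ρ p * (z.2 - p.2)).re := by
    rw [← Complex.sub_re, ← map_sub, nr_apply, show (2 : ℂ) = ((2 : ℝ) : ℂ) by norm_num,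
      Complex.re_ofReal_mul]
    rfl
  linarith

/-- uniqueness of the supporting form -/
theorem supp_uniq (hs : StrC D O ρ) {p : ℂ × ℂ} (hp : p ∈ frontier D)
    (hα : ∀ z ∈ D, (nr ρ p z).re < (nr ρ p p).re) (hne : D.Nonempty)
    (γ : ℂ × ℂ →L[ℂ] ℂ) (hγ : ∀ z ∈ D, (γ z).re < (γ p).re) :
    ∃ t : ℝ, 0 < t ∧ ∀ v, γ v = t * nr ρ p v := by
  -- inward directions
  have h1 : ∀ v : ℂ × ℂ, (nr ρ p v).re < 0 → (γ v).re < 0 := by
    intro v hv
    rw [nr_re] at hv
    have hpO : p ∈ O := hs.cl (frontier_subset_closure hp)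
    have h2 : HasDerivAt (fun s : ℝ => ρ (p + s • v)) (fderiv ℝ ρ p v) 0 := by
      have h3 : HasDerivAt (fun s : ℝ => p + s • v) v 0 := by
        have := ((hasDerivAt_id (0 : ℝ)).smul_const v).const_add p
        simpa using this
      have h4 : HasFDerivAt ρ (fderiv ℝ ρ p) (p + (0 : ℝ) • v) := by
        rw [zero_smul, add_zero]
        exact hs.d1 hpO
      exact h4.comp_hasDerivAt 0 h3
    have h5 : ∀ᶠ s : ℝ in 𝓝[>] 0, ρ (p + s • v) < 0 := by
      have h6 := h2.hasDerivWithinAt (s := Ioi 0)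
      rw [hasDerivWithinAt_iff_tendsto_slope' (by simp)] at h6
      filter_upwards [h6.eventually (gt_mem_nhds hv), self_mem_nhdsWithin] with s h7 h8
      rw [slope_def_field, sub_zero, zero_smul, add_zero, rho_frontier hs hp, sub_zero] at h7
      have h9 : (0 : ℝ) < s := h8
      rw [div_lt_iff₀ h9, zero_mul] at h7
      exact h7
    have h10 : ∀ᶠ s : ℝ in 𝓝[>] 0, p + s • v ∈ O := by
      have h11 : Tendsto (fun s : ℝ => p + s • v) (𝓝[>] 0) (𝓝 p) := by
        have : Continuous fun s : ℝ => p + s • v := by fun_prop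
        have h12 := this.tendsto 0
        rw [zero_smul, add_zero] at h12
        exact h12.mono_left nhdsWithin_le_nhds
      exact h11.eventually (hs.Oo.mem_nhds hpO)
    obtain ⟨s, ⟨hs1, hs2⟩, hs3⟩ := ((h5.and h10).and self_mem_nhdsWithin).exists
    have hs4 : (0 : ℝ) < s := hs3
    have h13 : p + s • v ∈ D := by
      rw [hs.eq]
      exact ⟨hs2, hs1⟩
    have h14 := hγ _ h13
    rw [map_add, Complex.add_re] at h14
    have h15 : (γ (s • v)).re = s * (γ v).re := by
      rw [← Complex.coe_smul, map_smul, smul_eq_mul, Complex.re_ofReal_mul]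
    rw [h15] at h14
    by_contra hcon
    push Not at hcon
    nlinarith [mul_nonneg hs4.le hcon]
  obtain ⟨z0, hz0⟩ := hne
  set w : ℂ × ℂ := z0 - p with hw
  have hw1 : (nr ρ p w).re < 0 := by
    rw [hw, map_sub, Complex.sub_re]
    linarith [hα z0 hz0]
  -- normalisation
  set κ : ℝ := (nr ρ p w).re with hκ
  have h2 : ∀ v : ℂ × ℂ, (nr ρ p v).re ≤ 0 → (γ v).re ≤ 0 := by
    intro v hv
    by_contra hcon
    push Not at hcon
    -- v + ε w
    set ε : ℝ := (γ v).re / (2 * (1 + |(γ w).re|)) with hε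
    have hε0 : 0 < ε := by positivity
    have h3 := h1 (v + ε • w) (by
      rw [map_add, Complex.add_re]
      have : (nr ρ p (ε • w)).re = ε * (nr ρ p w).re := by
        rw [← Complex.coe_smul, map_smul, smul_eq_mul, Complex.re_ofReal_mul]
      rw [this]
      nlinarith [mul_pos hε0 (neg_pos.2 hw1)])
    rw [map_add, Complex.add_re] at h3
    have h4 : (γ (ε • w)).re = ε * (γ w).re := by
      rw [← Complex.coe_smul, map_smul, smul_eq_mul, Complex.re_ofReal_mul]
    rw [h4] at h3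
    have h5 : -|(γ w).re| ≤ (γ w).re := neg_abs_le _
    have h6 : ε * (1 + |(γ w).re|) = (γ v).re / 2 := by
      rw [hε]
      have : (1 + |(γ w).re|) ≠ 0 := by positivity
      field_simp
    nlinarith [abs_nonneg (γ w).re]
  have hγw : (γ w).re < 0 := h1 w hw1
  have h3 : ∀ v : ℂ × ℂ, (γ v).re = (γ w).re / κ * (nr ρ p v).re := by
    intro v
    set s : ℝ := (nr ρ p v).re / κ with hs'
    have hκ0 : κ ≠ 0 := hw1.ne
    have e1 : (nr ρ p (v - s • w)).re = 0 := by
      rw [map_sub, Complex.sub_re, ← Complex.coe_smul, map_smul, smul_eq_mul,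
        Complex.re_ofReal_mul, ← hκ, hs']
      field_simp
      ring
    have e2 : (nr ρ p (-(v - s • w))).re = 0 := by
      rw [map_neg, Complex.neg_re, e1, neg_zero]
    have e3 := h2 _ e1.le
    have e4 := h2 _ e2.le
    rw [map_neg, Complex.neg_re] at e4
    have e5 : (γ (v - s • w)).re = 0 := le_antisymm e3 (by linarith)
    rw [map_sub, Complex.sub_re, ← Complex.coe_smul, map_smul, smul_eq_mul,
      Complex.re_ofReal_mul, sub_eq_zero] at e5
    rw [e5, hs']
    ring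
  refine ⟨(γ w).re / κ, div_pos_of_neg_of_neg hγw hw1, fun v => ?_⟩
  apply Complex.ext
  · rw [h3 v, Complex.re_ofReal_mul]
  · have h4 := h3 (Complex.I • v)
    rw [map_smul, map_smul, smul_eq_mul, smul_eq_mul, Complex.I_mul_re, Complex.I_mul_re] at h4
    rw [Complex.im_ofReal_mul]
    linarith

/-- the generators: functions continuous on the closure and holomorphic on `D`, and bounded
holomorphic functions of one linear coordinate -/
def Gen (D : Set (ℂ × ℂ)) : Set (ℂ × ℂ → ℂ) :=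
  {f | ContinuousOn f (closure D) ∧ DifferentiableOn ℂ f D} ∪
    {f | ∃ (α : ℂ × ℂ →L[ℂ] ℂ) (h : ℂ → ℂ), DifferentiableOn ℂ h (α '' D) ∧
      (∃ M : ℝ, ∀ w ∈ α '' D, ‖h w‖ ≤ M) ∧ f = fun z => h (α z)}

/-- the behaviour of the functions in the algebra near `p` -/
def Asy (D : Set (ℂ × ℂ)) (p : ℂ × ℂ) (α : ℂ × ℂ →L[ℂ] ℂ) (f : ℂ × ℂ → ℂ) : Prop :=
  DifferentiableOn ℂ f D ∧ (∃ M : ℝ, ∀ z ∈ D, ‖f z‖ ≤ M) ∧
    ∃ u : ℂ → ℂ, DifferentiableOn ℂ u (α '' D) ∧ (∃ M : ℝ, ∀ w ∈ α '' D, ‖u w‖ ≤ M) ∧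
      Tendsto (fun z => f z - u (α z)) (𝓝[D] p) (𝓝 0)

theorem gen_asy (hs : StrC D O ρ) {p : ℂ × ℂ} (hp : p ∈ frontier D) (hne : D.Nonempty)
    (hα : ∀ z ∈ D, (nr ρ p z).re < (nr ρ p p).re) {f : ℂ × ℂ → ℂ} (hf : f ∈ Gen D) :
    Asy D p (nr ρ p) f := by
  rcases hf with ⟨hfc, hfd⟩ | ⟨β, h, hd, ⟨M, hM⟩, rfl⟩
  · refine ⟨hfd, ?_, fun _ => f p, differentiableOn_const _, ⟨‖f p‖, fun _ _ => le_rfl⟩, ?_⟩
    · obtain ⟨M, hM⟩ := hs.bdd.isCompact_closure.exists_bound_of_continuousOn hfc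
      exact ⟨M, fun z hz => hM z (subset_closure hz)⟩
    · have h1 : Tendsto f (𝓝[D] p) (𝓝 (f p)) :=
        (hfc p (frontier_subset_closure hp)).mono_left (nhdsWithin_mono _ subset_closure)
      have h2 := h1.sub_const (f p)
      rwa [sub_self] at h2
  · have hdiff : DifferentiableOn ℂ (fun z => h (β z)) D :=
      hd.comp β.differentiable.differentiableOn (fun z hz => mem_image_of_mem _ hz)
    have hbd : ∃ M : ℝ, ∀ z ∈ D, ‖h (β z)‖ ≤ M := ⟨M, fun z hz => hM _ (mem_image_of_mem _ hz)⟩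
    refine ⟨hdiff, hbd, ?_⟩
    by_cases hβ0 : β = 0
    · refine ⟨fun _ => h 0, differentiableOn_const _, ⟨‖h 0‖, fun _ _ => le_rfl⟩, ?_⟩
      have : (fun z => h (β z) - h 0) = fun _ => (0 : ℂ) := by
        funext z
        rw [hβ0]
        simp
      rw [this]
      exact tendsto_const_nhds
    have hopen : IsOpen (β '' D) := by
      have hsurj : Function.Surjective β := by
        obtain ⟨v, hv⟩ : ∃ v, β v ≠ 0 := by
          by_contra hcon
          push Not at hcon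
          exact hβ0 (ContinuousLinearMap.ext fun v => by rw [hcon v]; simp)
        intro w
        exact ⟨(w / β v) • v, by rw [map_smul, smul_eq_mul, div_mul_cancel₀ _ hv]⟩
      exact (β.isOpenMap hsurj) _ hs.op
    by_cases hin : β p ∈ β '' D
    · refine ⟨fun _ => h (β p), differentiableOn_const _, ⟨‖h (β p)‖, fun _ _ => le_rfl⟩, ?_⟩
      have h1 : ContinuousAt h (β p) := (hd.differentiableAt (hopen.mem_nhds hin)).continuousAt
      have h2 : Tendsto (fun z => h (β z)) (𝓝[D] p) (𝓝 (h (β p))) :=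
        (h1.comp β.continuous.continuousAt).tendsto.mono_left nhdsWithin_le_nhds
      have h3 := h2.sub_const (h (β p))
      rwa [sub_self] at h3
    · -- β is a supporting form up to a factor
      have hcx : Convex ℝ (β '' D) := by
        have := hs.cvx.linear_image (β.toLinearMap.restrictScalars ℝ)
        exact this
      obtain ⟨F, hF⟩ := RCLike.geometric_hahn_banach_open_point (𝕜 := ℂ) hcx hopen hin
      set c : ℂ := F 1 with hc
      have hFw : ∀ w, F w = c * w := by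
        intro w
        have : w = w • (1 : ℂ) := by simp
        conv_lhs => rw [this, map_smul, smul_eq_mul]
        rw [hc, mul_comm]
      obtain ⟨t, ht, hγ⟩ := supp_uniq hs hp hα hne (c • β) (fun z hz => by
        have h1 := hF _ (mem_image_of_mem β hz)
        rw [hFw, hFw] at h1
        exact h1)
      have hc0 : c ≠ 0 := by
        intro h0
        obtain ⟨z, hz⟩ := hne
        have h1 := hF _ (mem_image_of_mem β hz)
        rw [hFw, hFw, h0, zero_mul, zero_mul] at h1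
        exact lt_irrefl _ h1
      have hβe : ∀ v, β v = (t / c) * nr ρ p v := by
        intro v
        have h1 := hγ v
        have h2 : (c • β) v = c * β v := rfl
        rw [h2] at h1
        field_simp
        linear_combination h1
      refine ⟨fun w => h ((t / c) * w), ?_, ⟨M, ?_⟩, ?_⟩
      · refine hd.comp (by fun_prop) ?_
        rintro _ ⟨z, hz, rfl⟩
        exact ⟨z, hz, hβe z⟩
      · rintro _ ⟨z, hz, rfl⟩
        refine hM _ ⟨z, hz, hβe z⟩
      · have : (fun z => h (β z) - h ((t / c) * nr ρ p z)) = fun _ => (0 : ℂ) := by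
          funext z
          rw [← hβe, sub_self]
        rw [this]
        exact tendsto_const_nhds

theorem adj_asy (hs : StrC D O ρ) {p : ℂ × ℂ} (hp : p ∈ frontier D) (hne : D.Nonempty)
    (hα : ∀ z ∈ D, (nr ρ p z).re < (nr ρ p p).re) {f : ℂ × ℂ → ℂ}
    (hf : f ∈ Algebra.adjoin ℂ (Gen D)) : Asy D p (nr ρ p) f := by
  induction hf using Algebra.adjoin_induction with
  | mem x hx => exact gen_asy hs hp hne hα hx
  | algebraMap r =>
    refine ⟨differentiableOn_const r, ⟨‖r‖, fun _ _ => le_rfl⟩, fun _ => r,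
      differentiableOn_const _, ⟨‖r‖, fun _ _ => le_rfl⟩, ?_⟩
    have : (fun z : ℂ × ℂ => (algebraMap ℂ (ℂ × ℂ → ℂ) r) z - r) = fun _ => (0 : ℂ) := by
      funext z
      simp
    rw [this]
    exact tendsto_const_nhds
  | add x y _ _ hx hy =>
    obtain ⟨x1, ⟨Mx, x2⟩, u, x3, ⟨Mu, x4⟩, x5⟩ := hx
    obtain ⟨y1, ⟨My, y2⟩, v, y3, ⟨Mv, y4⟩, y5⟩ := hy
    refine ⟨x1.add y1, ⟨Mx + My, fun z hz => (norm_add_le _ _).trans (add_le_add (x2 z hz) (y2 z hz))⟩,
      fun w => u w + v w, x3.fun_add y3,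
      ⟨Mu + Mv, fun w hw => (norm_add_le _ _).trans (add_le_add (x4 w hw) (y4 w hw))⟩, ?_⟩
    have h1 := x5.add y5
    rw [add_zero] at h1
    refine h1.congr fun z => ?_
    rw [Pi.add_apply]
    ring
  | mul x y _ _ hx hy =>
    obtain ⟨x1, ⟨Mx, x2⟩, u, x3, ⟨Mu, x4⟩, x5⟩ := hx
    obtain ⟨y1, ⟨My, y2⟩, v, y3, ⟨Mv, y4⟩, y5⟩ := hy
    refine ⟨x1.mul y1, ⟨Mx * My, fun z hz => ?_⟩,
      fun w => u w * v w, x3.fun_mul y3, ⟨Mu * Mv, fun w hw => ?_⟩, ?_⟩
    · rw [Pi.mul_apply, norm_mul]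
      exact mul_le_mul (x2 z hz) (y2 z hz) (norm_nonneg _) ((norm_nonneg _).trans (x2 z hz))
    · rw [norm_mul]
      exact mul_le_mul (x4 w hw) (y4 w hw) (norm_nonneg _) ((norm_nonneg _).trans (x4 w hw))
    · have h1 : Tendsto (fun z => (x z - u (nr ρ p z)) * y z) (𝓝[D] p) (𝓝 0) := by
        refine x5.zero_mul_isBoundedUnder_le ?_
        refine isBoundedUnder_of_eventually_le (a := My) ?_
        filter_upwards [self_mem_nhdsWithin] with z hz
        exact y2 z hz
      have h2 : Tendsto (fun z => (y z - v (nr ρ p z)) * u (nr ρ p z)) (𝓝[D] p) (𝓝 0) := by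
        refine y5.zero_mul_isBoundedUnder_le ?_
        refine isBoundedUnder_of_eventually_le (a := Mu) ?_
        filter_upwards [self_mem_nhdsWithin] with z hz
        exact x4 _ (mem_image_of_mem _ hz)
      have h3 := h1.add h2
      rw [add_zero] at h3
      refine h3.congr fun z => ?_
      rw [Pi.mul_apply]
      ring

/-- **Closed algebra.** -/
theorem alg (hs : StrC D O ρ) {N : ℕ} (f : Fin N → ℂ × ℂ → ℂ) (G : ℂ × ℂ → ℂ) {δ : ℝ}
    (hfd : ∀ j, DifferentiableOn ℂ (f j) D)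
    (hf : ∀ j, ∀ ε : ℝ, 0 < ε → ∃ u ∈ Algebra.adjoin ℂ (Gen D), ∀ z ∈ D, ‖f j z - u z‖ ≤ ε)
    (hG : DifferentiableOn ℂ G D) (hGb : ∃ M : ℝ, ∀ z ∈ D, ‖G z‖ ≤ M) (hδ : 0 < δ)
    (hlow : ∀ z ∈ D, δ ≤ ∑ j, ‖f j z‖ + ‖G z‖) :
    ∃ (g : Fin N → ℂ × ℂ → ℂ) (g₀ : ℂ × ℂ → ℂ),
      (∀ j, DifferentiableOn ℂ (g j) D) ∧ DifferentiableOn ℂ g₀ D ∧
      (∃ C : ℝ, (∀ j, ∀ z ∈ D, ‖g j z‖ ≤ C) ∧ ∀ z ∈ D, ‖g₀ z‖ ≤ C) ∧
      ∀ z ∈ D, ∑ j, f j z * g j z + G z * g₀ z = 1 := by
  classical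
  rcases D.eq_empty_or_nonempty with hD0 | hne
  · refine ⟨fun _ _ => 0, fun _ => 0, fun _ => differentiableOn_const _, differentiableOn_const _,
      ⟨0, ?_, ?_⟩, ?_⟩
    · intro j z hz
      rw [hD0] at hz
      exact hz.elim
    · intro z hz
      rw [hD0] at hz
      exact hz.elim
    · intro z hz
      rw [hD0] at hz
      exact hz.elim
  obtain ⟨l, L, d, B, h, -⟩ := hs.scd hne
  obtain ⟨p0, hp0⟩ : (frontier D).Nonempty := by
    exact (nonempty_frontier_iff.2 ⟨hne, fun h1 => by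
      have := hs.bdd
      rw [h1] at this
      exact NoncompactSpace.noncompact_univ (X := ℂ × ℂ) (by
        have h2 := this.isCompact_closure
        rwa [closure_univ] at h2)⟩)
  obtain ⟨g, g1, ⟨C, g2⟩, g3⟩ := crit hs (Fin.cons G f : Fin (N + 1) → ℂ × ℂ → ℂ)
    (fun j => by
      refine Fin.cases ?_ (fun j => ?_) j
      · exact hG
      · exact hfd j)
    (fun j => by
      refine Fin.cases ?_ (fun j => ?_) j
      · exact hGb
      · obtain ⟨u, hu1, hu2⟩ := hf j 1 one_pos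
        obtain ⟨-, ⟨M, hM⟩, -⟩ := adj_asy hs hp0 hne (nr_supp hs h hp0) hu1
        refine ⟨M + 1, fun z hz => ?_⟩
        rw [Fin.cons_succ]
        have h1 := norm_add_le (f j z - u z) (u z)
        rw [sub_add_cancel] at h1
        linarith [hu2 z hz, hM z hz])
    (fun z hz => by
      by_contra hcon
      push Not at hcon
      have h1 := hlow z hz
      have h2 : G z = 0 := by
        have := hcon 0
        rwa [Fin.cons_zero] at this
      have h3 : ∀ j, f j z = 0 := fun j => by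
        have := hcon j.succ
        rwa [Fin.cons_succ] at this
      rw [h2, norm_zero, add_zero] at h1
      simp only [h3, norm_zero, Finset.sum_const_zero] at h1
      linarith)
    (fun p hp => by
      have hα := nr_supp hs h hp
      refine ⟨0, Finset.univ.erase 0, δ, nr ρ p, hδ, ?_, hα, ?_⟩
      · filter_upwards [self_mem_nhdsWithin] with z hz
        have h1 := hlow z hz
        have h2 : ∑ j ∈ Finset.univ.erase (0 : Fin (N + 1)),
            ‖(Fin.cons G f : Fin (N + 1) → ℂ × ℂ → ℂ) j z‖ = ∑ j, ‖f j z‖ := by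
          have h3 := Finset.add_sum_erase Finset.univ
            (fun j => ‖(Fin.cons G f : Fin (N + 1) → ℂ × ℂ → ℂ) j z‖) (Finset.mem_univ 0)
          rw [Fin.sum_univ_succ] at h3
          have h4 : ∀ j : Fin N, (Fin.cons G f : Fin (N + 1) → ℂ × ℂ → ℂ) j.succ z = f j z :=
            fun j => by rw [Fin.cons_succ]
          simp only [h4] at h3
          linarith
        rw [h2, Fin.cons_zero]
        linarith
      · intro ε hε j hj
        obtain ⟨i, rfl⟩ := Fin.exists_succ_eq.2 (Finset.ne_of_mem_erase hj)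
        obtain ⟨u, hu1, hu2⟩ := hf i (ε / 2) (half_pos hε)
        obtain ⟨-, -, v, v1, v2, v3⟩ := adj_asy hs hp hne hα hu1
        refine ⟨v, v1, v2, ?_⟩
        rw [Metric.tendsto_nhds] at v3
        filter_upwards [v3 (ε / 2) (half_pos hε), self_mem_nhdsWithin] with z h1 hz
        rw [dist_zero_right] at h1
        rw [Fin.cons_succ]
        have h2 := norm_add_le (f i z - u z) (u z - v (nr ρ p z))
        rw [sub_add_sub_cancel] at h2
        linarith [hu2 z hz])
  refine ⟨fun j => g j.succ, g 0, fun j => g1 _, g1 0, ⟨C, fun j z hz => g2 _ z hz,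
    fun z hz => g2 0 z hz⟩, fun z hz => ?_⟩
  have h1 := g3 z hz
  rw [Fin.sum_univ_succ, Fin.cons_zero] at h1
  have h4 : ∀ j : Fin N, (Fin.cons G f : Fin (N + 1) → ℂ × ℂ → ℂ) j.succ z = f j z :=
    fun j => by rw [Fin.cons_succ]
  simp only [h4] at h1
  rw [add_comm]
  exact h1

end Pool.Agent.K9h23.Sc
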